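import Pool.Agent.H96R.DP.PTime

/-!
# The languages are in UP
-/

set_option autoImplicit false

namespace Pool.Agent.H96R.DP

open MeasureTheory Pool.Agent.NPC Pool.Agent.H628R3.RO

section

variable {V : Bool → Alg} {p : Bool → Polynomial ℕ} {b : Polynomial ℕ} (hb : Bd V p b) (t : ℕ)
  (L : List (List Bool)) (SB : List (List Bool))

include hb

theorem stp_Tt {n k : ℕ} (h : Tt b t (k + 1) ≤ n) :
    stp V p t L b SB n (Tt b t k, lv (ofL SB) V p b t L k) =
      (Tt b t (k + 1), lv (ofL SB) V p b t L (k + 1)) := by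
  unfold stp
  rw [if_pos]
  · rfl
  · simp only [Bool.and_eq_true, decide_eq_true_eq]
    refine ⟨(okG_iff hb.le_eval).2 (by rwa [Tt_succ] at h), t_lt_Tt b t k, ?_⟩
    exact lv_le_Tt (ofL SB) V p b t L k

theorem stp_stop {n T l : ℕ} (h : ¬ Gt b T ≤ n) : stp V p t L b SB n (T, l) = (T, l) := by
  unfold stp
  rw [if_neg]
  simp only [Bool.and_eq_true, decide_eq_true_eq, not_and]
  intro h1
  exact absurd ((okG_iff hb.le_eval).1 h1) h

theorem iter_Tt (n : ℕ) : ∀ k, Tt b t k ≤ n →
    (stp V p t L b SB n)^[k] (t + 4, 4) = (Tt b t k, lv (ofL SB) V p b t L k) := by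
  intro k
  induction k with
  | zero => intro _; rfl
  | succ k ih =>
    intro h
    rw [Function.iterate_succ_apply', ih ((Tt_strictMono b t (Nat.lt_succ_self k)).le.trans h)]
    exact stp_Tt hb t L SB h

theorem iter_form (n i : ℕ) : ∃ k, (k = 0 ∨ Tt b t k ≤ n) ∧
    (stp V p t L b SB n)^[i] (t + 4, 4) = (Tt b t k, lv (ofL SB) V p b t L k) := by
  induction i with
  | zero => exact ⟨0, Or.inl rfl, rfl⟩
  | succ i ih =>
    obtain ⟨k, hk, h⟩ := ih
    rw [Function.iterate_succ_apply', h]
    by_cases h1 : Tt b t (k + 1) ≤ n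
    · exact ⟨k + 1, Or.inr h1, stp_Tt hb t L SB h1⟩
    · exact ⟨k, hk, stp_stop hb t L SB (by rwa [Tt_succ] at h1)⟩

theorem fin_Tt (k : ℕ) : fin V p t L b SB (Tt b t k) =
    (Tt b t k, lv (ofL SB) V p b t L k) := by
  unfold fin
  have h1 : k ≤ Tt b t k := (Tt_strictMono b t).le_apply
  obtain ⟨d, hd⟩ := Nat.exists_eq_add_of_le h1
  have h2 := iter_Tt hb t L SB (Tt b t k) k le_rfl
  have h3 : ∀ d, (stp V p t L b SB (Tt b t k))^[d] (Tt b t k, lv (ofL SB) V p b t L k) =
      (Tt b t k, lv (ofL SB) V p b t L k) := by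
    intro d
    induction d with
    | zero => rfl
    | succ d ih =>
      rw [Function.iterate_succ_apply', ih]
      apply stp_stop hb t L SB
      have := lt_Gt b (Tt b t k)
      omega
  have h4 : (stp V p t L b SB (Tt b t k))^[d + k] (t + 4, 4) =
      (Tt b t k, lv (ofL SB) V p b t L k) := by
    rw [Function.iterate_add_apply, h2, h3]
  have h5 : Tt b t k = d + k := by omega
  have h6 : ∀ m, m = d + k → (stp V p t L b SB (Tt b t k))^[m] (t + 4, 4) =
      (Tt b t k, lv (ofL SB) V p b t L k) := by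
    rintro m rfl
    exact h4
  exact h6 _ h5

theorem fin_eq {n : ℕ} (h : (fin V p t L b SB n).1 = n) : ∃ k, Tt b t k = n := by
  obtain ⟨k, -, hk⟩ := iter_form hb t L SB n n
  refine ⟨k, ?_⟩
  have : fin V p t L b SB n = (Tt b t k, lv (ofL SB) V p b t L k) := hk
  rw [this] at h
  exact h

theorem iter_le (n i : ℕ) : ((stp V p t L b SB n)^[i] (t + 4, 4)).1 ≤ n + (t + 4) ∧
    ((stp V p t L b SB n)^[i] (t + 4, 4)).2 ≤ n + (t + 4) := by
  obtain ⟨k, hk, h⟩ := iter_form hb t L SB n i
  rw [h]
  have h1 := lv_le_Tt (ofL SB) V p b t L k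
  have h2 : Tt b t k ≤ n + (t + 4) := by
    rcases hk with rfl | hk
    · rw [Tt_zero]; omega
    · omega
  exact ⟨h2, h1.trans h2⟩

omit SB in
theorem p_fin {α : Type} [TEnc α] {SB : α → List (List Bool)} {n : α → ℕ} (hSB : Poly SB)
    (hn : UPoly n) : Poly (fun a => fin V p t L b (SB a) (n a)) := by
  have h0 : Poly (fun a => n a + (t + 4)) := Poly.add hn.toPoly (NPC.Poly.const _)
  obtain ⟨r, hr⟩ := h0.sz_le
  refine (Poly.iterLen (l := fun a => List.replicate (n a) ()) (s := fun _ => ((t + 4, 4) : ℕ × ℕ))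
    (F := fun (a : α) (s : ℕ × ℕ) => stp V p t L b (SB a) (n a) s) hn (NPC.Poly.const _)
    (p_stp t L hb hSB hn) (Polynomial.C 4 * r + Polynomial.C 1) ?_).congr fun a => ?_
  · intro a k _
    have h1 := iter_le hb t L (SB a) (n a) k
    have h2 := sz_nat_mono_le h1.1
    have h3 := sz_nat_mono_le h1.2
    have h4 := hr a
    have e : (fun s : ℕ × ℕ => stp V p t L b (SB a) (n a) s)^[k] (t + 4, 4) =
        (((stp V p t L b (SB a) (n a))^[k] (t + 4, 4)).1,
          ((stp V p t L b (SB a) (n a))^[k] (t + 4, 4)).2) := rfl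
    rw [e, sz_pair]
    simp only [Polynomial.eval_add, Polynomial.eval_mul, Polynomial.eval_C]
    omega
  · rw [List.length_replicate]
    rfl

end

/-! ### the level does not depend on long strings of the base oracle -/

theorem lv_congr {V : Bool → Alg} {p : Bool → Polynomial ℕ} {b : Polynomial ℕ} (hb : Bd V p b)
    (t : ℕ) (L : List (List Bool)) {B B' : Oracle} {M : ℕ}
    (h : ∀ y : List Bool, y.length ≤ M → B y = B' y) :
    ∀ k, (∀ i < k, b.eval (2 ^ (Tt b t i)) ≤ M) → lv B V p b t L k = lv B' V p b t L k := by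
  intro k
  induction k with
  | zero => intro _; rfl
  | succ k ih =>
    intro hM
    have h1 := ih fun i hi => hM i (by omega)
    rw [lv_succ, lv_succ, h1]
    congr 1
    have h2 : Err B V p (Tt b t k) = Err B' V p (Tt b t k) := by
      ext A
      exact hb.congr A B B' _ fun y hy => h y (hy.trans (hM k (Nat.lt_succ_self k)))
    have h3 : ck B V p b t L k = ck B' V p b t L k := by
      unfold ck chk
      rw [h1]
      simp only [h2]
    rw [h3]

theorem size_bound {b : Polynomial ℕ} (t : ℕ) (k : ℕ) :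
    ∀ i < k, b.eval (2 ^ (Tt b t i)) ≤ (Tt b t k).size := by
  intro i hi
  have h1 : Tt b t (i + 1) ≤ Tt b t k := (Tt_strictMono b t).monotone hi
  rw [Tt_succ] at h1
  have h2 : 2 ^ (2 ^ (b.eval (2 ^ Tt b t i) + 1)) ≤ Tt b t k := by
    unfold Gt at h1
    omega
  have h3 : 2 ^ (b.eval (2 ^ Tt b t i) + 1) < (Tt b t k).size := Nat.lt_size.2 h2
  have h4 : b.eval (2 ^ Tt b t i) + 1 < 2 ^ (b.eval (2 ^ Tt b t i) + 1) := Nat.lt_two_pow_self
  omega

/-! ### the languages -/

/-- the language of the values with bit `c`, in the blocks with number at least `n₀` -/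
def LL (B : Oracle) (V : Bool → Alg) (p : Bool → Polynomial ℕ) (b : Polynomial ℕ) (t : ℕ)
    (L : List (List Bool)) (n₀ : ℕ) (c : Bool) (A : Oracle) : Set (List Bool) :=
  {x | ∃ k, n₀ ≤ Tt b t k ∧ ∃ w : List Bool, w.length = Tt b t k ∧
    x = inst (Tt b t k) (vl (nb (Tt b t k) (lv B V p b t L k)) (c.toNat, w) A)}

theorem eq_inst : ∀ {x v : List Bool}, x.drop (lvl x + 1) = v → v ≠ [] → x = inst (lvl x) v
  | [], v, h, hv => absurd (by rw [← h]; rfl) hv
  | true :: y, v, h, hv => by
    have h1 : lvl (true :: y) = lvl y + 1 := by simp [lvl]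
    rw [h1] at h ⊢
    have h2 : y.drop (lvl y + 1) = v := by simpa using h
    have h3 := eq_inst h2 hv
    conv_lhs => rw [h3]
    simp [inst, List.replicate_succ]
  | false :: y, v, h, _ => by
    have h1 : lvl (false :: y) = 0 := by simp [lvl]
    rw [h1] at h ⊢
    have h2 : y = v := by simpa using h
    rw [h2]
    simp [inst]

theorem take_eq (l : List Bool) (k : ℕ) : l.take k = (l.reverse.drop (l.length - k)).reverse := by
  rw [List.drop_reverse, List.reverse_reverse]
  rcases le_total k l.length with h | h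
  · congr 1
    omega
  · rw [List.take_of_length_le h, List.take_of_length_le (by omega)]

theorem p_take {α : Type} [TEnc α] {v : α → List Bool} {n : α → ℕ} (hv : Poly v)
    (hn : UPoly n) : Poly (fun a => (v a).take (n a)) := by
  refine (Poly.reverse (p_drop (Poly.reverse hv) (UPoly.of_le (Poly.sub (Poly.length hv)
    hn.toPoly) (UPoly.length hv) fun a => Nat.sub_le _ _))).congr fun a => ?_
  exact (take_eq _ _).symm

theorem p_strs_size {α : Type} [TEnc α] {n : α → ℕ} (hn : UPoly n) :
    Poly (fun a => strs ((n a).size)) := by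
  have h1 : UPoly (fun a => (n a).size) := by
    refine (UPoly.length (Poly.natBits hn.toPoly)).congr fun a => ?_
    simp only [Nat.size_eq_bits_len]
  refine p_strs h1 (N := fun a => 2 * n a + 1) (((UPoly.const 2).mul hn).add (UPoly.const 1)) ?_
  intro a
  rcases Nat.eq_zero_or_pos (n a) with h | h
  · rw [h]; simp
  · have h2 : 0 < (n a).size := Nat.size_pos.2 h
    obtain ⟨s, hs⟩ : ∃ s, (n a).size = s + 1 := ⟨(n a).size - 1, by omega⟩
    have h3 : 2 ^ s ≤ n a := by
      rw [← Nat.lt_size]
      omega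
    rw [hs, pow_succ]
    omega

/-- the questions -/
def qs (c : Bool) (z : List Bool × List Bool) : List (List Bool) :=
  (asks (3 * lvl z.1 + 2) c.toNat z.2).map (fun y => true :: y) ++
    (strs ((lvl z.1).size)).map (fun y => false :: y)

/-- the base oracle found from the answers -/
def sb (n : ℕ) (ans : List Bool) : List (List Bool) :=
  (((strs n.size).zip (ans.drop (3 * n + 2))).filter (fun q => q.2)).map (fun q => q.1)

/-- the test -/
noncomputable def tst (V : Bool → Alg) (p : Bool → Polynomial ℕ) (b : Polynomial ℕ) (t : ℕ)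
    (L : List (List Bool)) (n₀ : ℕ) (z : (List Bool × List Bool) × List Bool) : Bool :=
  (decide ((fin V p t L b (sb (lvl z.1.1) z.2) (lvl z.1.1)).1 = lvl z.1.1) &&
    decide (n₀ ≤ lvl z.1.1)) && (decide (z.1.2.length = lvl z.1.1) &&
    decide (z.2.take (nb (lvl z.1.1) (fin V p t L b (sb (lvl z.1.1) z.2) (lvl z.1.1)).2) =
      z.1.1.drop (lvl z.1.1 + 1)))

theorem p_qs (c : Bool) : Poly (qs c) := by
  have h1 : UPoly (fun z : List Bool × List Bool => lvl z.1) := u_lvl (Poly.fst Poly.id)
  refine Poly.append (NPC.Poly.map (F := fun (_ : List Bool × List Bool) (y : List Bool) => true :: y)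
      (p_asks (((UPoly.const 3).mul h1).add (UPoly.const 2)) (UPoly.const _) (Poly.snd Poly.id))
      (Poly.cons (NPC.Poly.const true) (Poly.snd Poly.id)))
    (NPC.Poly.map (F := fun (_ : List Bool × List Bool) (y : List Bool) => false :: y)
      (p_strs_size h1) (Poly.cons (NPC.Poly.const false) (Poly.snd Poly.id)))

theorem p_sb {α : Type} [TEnc α] {n : α → ℕ} {ans : α → List Bool} (hn : UPoly n)
    (ha : Poly ans) : Poly (fun a => sb (n a) (ans a)) := by
  refine NPC.Poly.map (F := fun (_ : α) (q : List Bool × Bool) => q.1)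
    (Poly.filter (p := fun (_ : α) (q : List Bool × Bool) => q.2) (Poly.zip (p_strs_size hn)
      (p_drop ha (((UPoly.const 3).mul hn).add (UPoly.const 2)))) (Poly.snd (Poly.snd Poly.id)))
    (Poly.fst (Poly.snd Poly.id))

theorem p_tst {V : Bool → Alg} {p : Bool → Polynomial ℕ} {b : Polynomial ℕ} (hb : Bd V p b)
    (t : ℕ) (L : List (List Bool)) (n₀ : ℕ) : Poly (tst V p b t L n₀) := by
  have h11 : Poly (fun z : (List Bool × List Bool) × List Bool => z.1.1) :=
    Poly.fst (Poly.fst Poly.id)
  have h12 : Poly (fun z : (List Bool × List Bool) × List Bool => z.1.2) :=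
    Poly.snd (Poly.fst Poly.id)
  have h2 : Poly (fun z : (List Bool × List Bool) × List Bool => z.2) := Poly.snd Poly.id
  have hn := u_lvl h11
  have hf := p_fin hb t L (p_sb hn h2) hn
  have hf1 := Poly.fst hf
  have hf2 := Poly.snd hf
  have hu : UPoly (fun z : (List Bool × List Bool) × List Bool =>
      (fin V p t L b (sb (lvl z.1.1) z.2) (lvl z.1.1)).2) :=
    UPoly.of_le hf2 (hn.add (UPoly.const (t + 4))) fun z => (iter_le hb t L _ _ _).2
  refine Poly.and (Poly.and (Poly.decide_eq hf1 hn.toPoly)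
    (Poly.decide_le (NPC.Poly.const n₀) hn.toPoly)) (Poly.and
    (Poly.decide_eq (Poly.length h12) hn.toPoly)
    (Poly.decide_eq (p_take h2 ((((UPoly.const 2).mul hn).add hu).add (UPoly.const 1)))
      (p_drop h11 (hn.add (UPoly.const 1)))))

/-! ### correctness of the test -/

theorem zip_filter_map (l : List (List Bool)) (B : Oracle) :
    ((l.zip (l.map B)).filter (fun q => q.2)).map (fun q => q.1) = l.filter B := by
  induction l with
  | nil => rfl
  | cons a l ih =>
    simp only [List.map_cons, List.zip_cons_cons]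
    cases h : B a
    · rw [List.filter_cons_of_neg (by simp), List.filter_cons_of_neg (by simp [h])]
      exact ih
    · rw [List.filter_cons_of_pos (by simp), List.filter_cons_of_pos (by simp [h]),
        List.map_cons, ih]

theorem length_asks (m c : ℕ) (w : List Bool) : (asks m c w).length = m := by simp [asks]

theorem map_qs (c : Bool) (x w : List Bool) (A B : Oracle) :
    (qs c (x, w)).map (jn A B) = vl (3 * lvl x + 2) (c.toNat, w) A ++
      (strs ((lvl x).size)).map B := by
  unfold qs
  rw [List.map_append, List.map_map, List.map_map]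
  congr 1
  unfold asks vl
  rw [List.map_map]
  rfl

theorem sb_map (c : Bool) (x w : List Bool) (A B : Oracle) :
    sb (lvl x) ((qs c (x, w)).map (jn A B)) = (strs ((lvl x).size)).filter B := by
  unfold sb
  rw [map_qs, List.drop_append, length_vl, Nat.sub_self, List.drop_zero,
    List.drop_of_length_le (by rw [length_vl]), List.nil_append]
  exact zip_filter_map _ B

theorem take_vl {m m' : ℕ} (h : m ≤ m') (κ : Cand) (A : Oracle) (l : List Bool) :
    (vl m' κ A ++ l).take m = vl m κ A := by
  rw [List.take_append_of_le_length (by rw [length_vl]; exact h)]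
  unfold vl
  rw [← List.map_take, List.take_range, min_eq_left h]

theorem tst_iff {V : Bool → Alg} {p : Bool → Polynomial ℕ} {b : Polynomial ℕ} (hb : Bd V p b)
    (t : ℕ) (L : List (List Bool)) (n₀ : ℕ) (c : Bool) (x w : List Bool) (A B : Oracle) :
    tst V p b t L n₀ ((x, w), (qs c (x, w)).map (jn A B)) = true ↔
      ∃ k, n₀ ≤ Tt b t k ∧ w.length = Tt b t k ∧
        x = inst (Tt b t k) (vl (nb (Tt b t k) (lv B V p b t L k)) (c.toNat, w) A) := by
  have hlv : ∀ k, lv (ofL ((strs ((Tt b t k).size)).filter B)) V p b t L k =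
      lv B V p b t L k := by
    intro k
    refine lv_congr hb t L (M := (Tt b t k).size) ?_ k (size_bound t k)
    intro y hy
    exact ofL_filter B (mem_strs.2 hy)
  unfold tst
  simp only [Bool.and_eq_true, decide_eq_true_eq]
  rw [sb_map, map_qs]
  constructor
  · rintro ⟨⟨h1, h2⟩, h3, h4⟩
    obtain ⟨k, hk⟩ := fin_eq hb t L _ h1
    rw [← hk] at h1 h2 h3
    refine ⟨k, h2, h3, ?_⟩
    rw [← hk, fin_Tt hb] at h4
    simp only at h4
    rw [hlv k, take_vl (by
      have := lv_le_Tt B V p b t L k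
      unfold nb
      omega)] at h4
    rw [hk] at h4 ⊢
    refine eq_inst h4.symm ?_
    intro h5
    have h6 := congrArg List.length h5
    rw [length_vl] at h6
    unfold nb at h6
    simp at h6
  · rintro ⟨k, h1, h2, h3⟩
    have hx : lvl x = Tt b t k := by rw [h3, lvl_inst]
    rw [hx, fin_Tt hb]
    refine ⟨⟨rfl, h1⟩, h2, ?_⟩
    simp only
    rw [hlv k, take_vl (by
      have := lv_le_Tt B V p b t L k
      unfold nb
      omega)]
    conv_rhs => rw [h3]
    rw [drop_inst]

/-- a language with unique witnesses checked by nonadaptive questions to the oracle is in `UP` -/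
theorem isUP_of_tt (A : Oracle) (L : Set (List Bool))
    {Q : List Bool × List Bool → List (List Bool)}
    {T : (List Bool × List Bool) × List Bool → Bool} (hQ : Poly Q) (hT : Poly T)
    (p : Polynomial ℕ)
    (h : ∀ x, x ∈ L ↔ ∃ w : List Bool, w.length ≤ p.eval x.length ∧
      T ((x, w), (Q (x, w)).map A) = true)
    (hu : ∀ x w w', T ((x, w), (Q (x, w)).map A) = true → T ((x, w'), (Q (x, w')).map A) = true →
      w = w') : IsUP A L := by
  have h1 : IsFP A (fun y => (fun z : List Bool × List Bool => [T (unpair z.1, z.2)])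
      (y, ((fun y => Q (unpair y)) y).map A)) := by
    refine IsFP.tt (Q := fun y => Q (unpair y)) (H := fun z => [T (unpair z.1, z.2)])
      (hQ.comp poly_unpair) ?_
    exact Poly.cons (hT.comp (Poly.pair (poly_unpair.comp (Poly.fst Poly.id))
      (Poly.snd Poly.id))) (NPC.Poly.const [])
  refine ⟨_, p, h1, fun x => ?_, fun x w w' _ _ h2 h3 => ?_⟩
  · rw [h x]
    refine exists_congr fun w => and_congr_right fun _ => ?_
    simp only [unpair_pairBits, List.cons.injEq, and_true]
  · simp only [unpair_pairBits, List.cons.injEq, and_true] at h2 h3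
    exact hu x w w' h2 h3

/-- If there are no two equal values in the blocks in question, then the languages form a disjoint
pair of languages in `UP`. -/
theorem isPair_LL {V : Bool → Alg} {p : Bool → Polynomial ℕ} {b : Polynomial ℕ} (hb : Bd V p b)
    (t : ℕ) (L : List (List Bool)) (n₀ : ℕ) (A B : Oracle)
    (h : ∀ k, n₀ ≤ Tt b t k → A ∉ Two (Tt b t k) (lv B V p b t L k)) :
    IsPair (IsUP (jn A B)) (LL B V p b t L n₀ false A) (LL B V p b t L n₀ true A) := by
  have key : ∀ c, IsUP (jn A B) (LL B V p b t L n₀ c A) := by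
    intro c
    refine isUP_of_tt (jn A B) _ (p_qs c) (p_tst hb t L n₀) Polynomial.X (fun x => ?_) ?_
    · constructor
      · rintro ⟨k, h1, w, h2, h3⟩
        refine ⟨w, ?_, (tst_iff hb t L n₀ c x w A B).2 ⟨k, h1, h2, h3⟩⟩
        rw [Polynomial.eval_X, h3, length_inst, h2]
        omega
      · rintro ⟨w, -, h1⟩
        obtain ⟨k, h2, h3, h4⟩ := (tst_iff hb t L n₀ c x w A B).1 h1
        exact ⟨k, h2, w, h3, h4⟩
    · intro x w w' h1 h2
      obtain ⟨k, a1, a2, a3⟩ := (tst_iff hb t L n₀ c x w A B).1 h1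
      obtain ⟨k', b1, b2, b3⟩ := (tst_iff hb t L n₀ c x w' A B).1 h2
      have e1 : Tt b t k = Tt b t k' := (inst_inj (a3.symm.trans b3)).1
      have e2 : k = k' := (Tt_strictMono b t).injective e1
      subst e2
      have e3 := (inst_inj (a3.symm.trans b3)).2
      by_contra hne
      apply h k a1
      have hc : c.toNat < 2 := by cases c <;> simp
      refine ⟨(c.toNat, w), mem_cn.2 ⟨hc, a2⟩, (c.toNat, w'), mem_cn.2 ⟨hc, b2⟩, ?_, mem_Same.2 e3⟩
      intro h5
      exact hne (Prod.ext_iff.1 h5).2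
  refine ⟨key false, key true, ?_⟩
  rintro x ⟨⟨k, a1, w, a2, a3⟩, ⟨k', b1, w', b2, b3⟩⟩
  have e1 : Tt b t k = Tt b t k' := (inst_inj (a3.symm.trans b3)).1
  have e2 : k = k' := (Tt_strictMono b t).injective e1
  subst e2
  have e3 := (inst_inj (a3.symm.trans b3)).2
  apply h k a1
  refine ⟨(0, w), mem_cn.2 ⟨by norm_num, a2⟩, (1, w'), mem_cn.2 ⟨by norm_num, b2⟩, ?_,
    mem_Same.2 e3⟩
  intro h5
  have := (Prod.ext_iff.1 h5).1
  norm_num at this

end Pool.Agent.H96R.DP
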