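import Pool.Agent.H96R.DP.Proc
import Pool.Agent.H628R3.RO.P3
import Pool.Agent.H628R3.RO.G1

/-!
# The levels are computable in polynomial time
-/

set_option autoImplicit false

namespace Pool.Agent.H96R.DP

open MeasureTheory Pool.Agent.NPC Pool.Agent.H628R3.RO

/-- powers of two with a cap -/
def cpow (x c : ℕ) : ℕ := min (2 ^ x) c

theorem cpow_iterate (c k : ℕ) : (fun s : ℕ => min (2 * s) c)^[k] (min 1 c) = cpow k c := by
  induction k with
  | zero => rfl
  | succ k ih =>
    rw [Function.iterate_succ_apply', ih]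
    unfold cpow
    rw [pow_succ]
    omega

theorem u_cpow {α : Type} [TEnc α] {x c : α → ℕ} (hx : UPoly x) (hc : UPoly c) :
    UPoly (fun a => cpow (x a) (c a)) := by
  have hc' : Poly c := hc.toPoly
  obtain ⟨r, hr⟩ := hc'.sz_le
  have hstep : Poly (fun p : α × ℕ => min (2 * p.2) (c p.1)) :=
    Poly.min (Poly.mul (NPC.Poly.const 2) (Poly.snd Poly.id)) (hc'.comp (Poly.fst Poly.id))
  have h1 : Poly (fun a => (fun s : ℕ => min (2 * s) (c a))^[(List.replicate (x a) ()).length]
      (min 1 (c a))) := by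
    refine Poly.iterLen (l := fun a => List.replicate (x a) ()) (s := fun a => min 1 (c a))
      (F := fun (a : α) (s : ℕ) => min (2 * s) (c a)) hx (Poly.min (NPC.Poly.const 1) hc') hstep
      (Polynomial.C 2 * r) ?_
    intro a k _
    have e : (fun s : ℕ => min (2 * s) (c a))^[k] (min 1 (c a)) = cpow k (c a) := cpow_iterate _ _
    rw [e]
    have h2 : sz (cpow k (c a)) ≤ 2 * sz (c a) := sz_nat_mono_le (min_le_right _ _)
    have h3 := hr a
    simp only [Polynomial.eval_mul, Polynomial.eval_C]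
    omega
  refine UPoly.of_le (h1.congr fun a => ?_) hc fun a => min_le_right _ _
  rw [List.length_replicate, cpow_iterate]

/-- whether the block after `T` has number at most `n` -/
def okG (b : Polynomial ℕ) (T n : ℕ) : Bool :=
  decide (T ≤ n) &&
    decide (cpow (cpow (b.eval (cpow (min T n) (n + 1)) + 1) (n + 1)) (n + 1) + T + 1 ≤ n)

theorem okG_iff {b : Polynomial ℕ} (hb : ∀ m, m ≤ b.eval m) {T n : ℕ} :
    okG b T n = true ↔ Gt b T ≤ n := by
  unfold okG Gt
  rw [Bool.and_eq_true, decide_eq_true_eq, decide_eq_true_eq]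
  have p1 : ∀ x : ℕ, x < 2 ^ x := fun x => Nat.lt_two_pow_self
  constructor
  · rintro ⟨hT, h⟩
    rw [min_eq_left hT] at h
    set e := b.eval (cpow T (n + 1)) + 1 with he
    have h1 : cpow (cpow e (n + 1)) (n + 1) = 2 ^ (cpow e (n + 1)) := by
      have : cpow (cpow e (n + 1)) (n + 1) ≤ n := by omega
      unfold cpow at this ⊢
      omega
    have h2 : cpow e (n + 1) = 2 ^ e := by
      have h3 := p1 (cpow e (n + 1))
      have : cpow e (n + 1) ≤ n := by omega
      unfold cpow at this ⊢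
      omega
    have h3 : cpow T (n + 1) = 2 ^ T := by
      have h4 := p1 (cpow e (n + 1))
      have h5 := p1 e
      have h6 := hb (cpow T (n + 1))
      have : cpow T (n + 1) ≤ n := by omega
      unfold cpow at this ⊢
      omega
    rw [h1, h2, he, h3] at h
    exact h
  · intro h
    have h0 : 0 < 2 ^ (2 ^ (b.eval (2 ^ T) + 1)) := by positivity
    have hT : T ≤ n := by omega
    refine ⟨hT, ?_⟩
    rw [min_eq_left hT]
    have h1 := p1 (2 ^ (b.eval (2 ^ T) + 1))
    have h2 := p1 (b.eval (2 ^ T) + 1)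
    have h3 := hb (2 ^ T)
    have e1 : cpow T (n + 1) = 2 ^ T := by
      unfold cpow
      omega
    rw [e1]
    have e2 : cpow (b.eval (2 ^ T) + 1) (n + 1) = 2 ^ (b.eval (2 ^ T) + 1) := by
      unfold cpow
      omega
    rw [e2]
    have e3 : cpow (2 ^ (b.eval (2 ^ T) + 1)) (n + 1) = 2 ^ (2 ^ (b.eval (2 ^ T) + 1)) := by
      unfold cpow
      omega
    rw [e3]
    exact h

theorem p_okG {b : Polynomial ℕ} {α : Type} [TEnc α] {T n : α → ℕ} (hT : Poly T) (hn : UPoly n) :
    Poly (fun a => okG b (T a) (n a)) := by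
  have hm : UPoly (fun a => min (T a) (n a)) :=
    UPoly.of_le (Poly.min hT hn.toPoly) hn fun a => min_le_right _ _
  have hn1 : UPoly (fun a => n a + 1) := hn.add (UPoly.const 1)
  have h1 := u_cpow hm hn1
  have h2 : UPoly (fun a => b.eval (cpow (min (T a) (n a)) (n a + 1)) + 1) :=
    (h1.eval b).add (UPoly.const 1)
  have h3 := u_cpow (u_cpow h2 hn1) hn1
  exact Poly.and (Poly.decide_le hT hn.toPoly)
    (Poly.decide_le (Poly.add (Poly.add h3.toPoly hT) (NPC.Poly.const 1)) hn.toPoly)

/-! ### the events for finite oracles -/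

/-- the join of two finite oracles -/
def jl (S SB : List (List Bool)) : List (List Bool) :=
  S.map (fun y => true :: y) ++ SB.map (fun y => false :: y)

theorem ofL_jl (S SB : List (List Bool)) : ofL (jl S SB) = jn (ofL S) (ofL SB) := by
  funext x
  unfold ofL jl
  match x with
  | [] => simp [jn]
  | true :: y => simp [jn]
  | false :: y => simp [jn]

theorem p_jl {α : Type} [TEnc α] {S SB : α → List (List Bool)} (hS : Poly S) (hSB : Poly SB) :
    Poly (fun a => jl (S a) (SB a)) :=
  Poly.append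
    (NPC.Poly.map (F := fun (_ : α) (y : List Bool) => true :: y) hS
      (Poly.cons (NPC.Poly.const true) (Poly.snd Poly.id)))
    (NPC.Poly.map (F := fun (_ : α) (y : List Bool) => false :: y) hSB
      (Poly.cons (NPC.Poly.const false) (Poly.snd Poly.id)))

theorem p_replicate {α : Type} [TEnc α] {n : α → ℕ} (hn : UPoly n) (b : Bool) :
    Poly (fun a => List.replicate (n a) b) :=
  (NPC.Poly.map (F := fun (_ : α) (_ : Unit) => b) hn (NPC.Poly.const b)).congr fun a => by simp

theorem p_vl {α : Type} [TEnc α] {m c : α → ℕ} {w : α → List Bool} {S : α → List (List Bool)}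
    (hm : UPoly m) (hc : UPoly c) (hw : Poly w) (hS : Poly S) :
    Poly (fun a => vl (m a) (c a, w a) (ofL (S a))) := by
  have h1 : Poly (fun p : α × ℕ => p.1) := Poly.fst Poly.id
  have h2 : Poly (fun p : α × ℕ => p.2) := Poly.snd Poly.id
  refine (NPC.Poly.map (F := fun (a : α) (i : ℕ) => ofL (S a) (pos (c a) (min i (m a)) (w a)))
    hm.range (p_ofL (hS.comp h1) (p_pos (hc.comp h1) ?_ (hw.comp h1)))).congr fun a => ?_
  · exact UPoly.of_le (Poly.min h2 (hm.toPoly.comp h1)) (hm.comp h1) fun a => min_le_right _ _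
  · unfold vl
    apply List.map_congr_left
    intro i hi
    rw [List.mem_range] at hi
    rw [min_eq_left hi.le]

/-- the bad event, for a finite oracle -/
def fB (S : List (List Bool)) (n j : ℕ) : Bool :=
  (strsEq n).any fun w => (strsEq n).any fun w' =>
    decide (vl (nb n j) (0, w) (ofL S) = vl (nb n j) (1, w') (ofL S))

theorem fB_iff (S : List (List Bool)) (n j : ℕ) : fB S n j = true ↔ ofL S ∈ Bad n j := by
  unfold fB Bad
  simp only [List.any_eq_true, mem_strsEq, decide_eq_true_eq, Set.mem_ofPred_eq, mem_sn, mem_Same]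

theorem p_fB {α : Type} [TEnc α] {S : α → List (List Bool)} {n j N : α → ℕ} (hS : Poly S)
    (hn : UPoly n) (hj : UPoly j) (hN : UPoly N) (h : ∀ a, 2 ^ (n a) ≤ N a) :
    Poly (fun a => fB (S a) (n a) (j a)) := by
  unfold fB
  have hm : UPoly (fun a => nb (n a) (j a)) :=
    (((UPoly.const 2).mul hn).add hj).add (UPoly.const 1)
  refine Poly.any (p := fun a w => (strsEq (n a)).any fun w' =>
    decide (vl (nb (n a) (j a)) (0, w) (ofL (S a)) = vl (nb (n a) (j a)) (1, w') (ofL (S a))))
    (p_strsEq hn hN h) ?_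
  have h1 : Poly (fun p : α × List Bool => p.1) := Poly.fst Poly.id
  refine Poly.any (p := fun (q : α × List Bool) w' =>
    decide (vl (nb (n q.1) (j q.1)) (0, q.2) (ofL (S q.1)) =
      vl (nb (n q.1) (j q.1)) (1, w') (ofL (S q.1))))
    (p_strsEq (l := fun q : α × List Bool => n q.1) (hn.comp h1) (hN.comp h1) fun q => h q.1) ?_
  have k1 : Poly (fun q : (α × List Bool) × List Bool => q.1.1) := Poly.fst (Poly.fst Poly.id)
  have k2 : Poly (fun q : (α × List Bool) × List Bool => q.1.2) := Poly.snd (Poly.fst Poly.id)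
  have k3 : Poly (fun q : (α × List Bool) × List Bool => q.2) := Poly.snd Poly.id
  exact Poly.decide_eq (p_vl (hm.comp k1) (UPoly.const 0) k2 (hS.comp k1))
    (p_vl (hm.comp k1) (UPoly.const 1) k3 (hS.comp k1))

section

variable (V : Bool → Alg) (p : Bool → Polynomial ℕ)

/-- having a witness, for a finite oracle -/
def fW (SJ : List (List Bool)) (c : Bool) (n : ℕ) (x : List Bool) : Bool :=
  (strs ((p c).eval (2 ^ n))).any fun y => decide (y.length ≤ (p c).eval x.length) &&
    decide ((V c).out (ofL SJ) (pairBits x y) = some [true])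

theorem fW_iff (SJ : List (List Bool)) (c : Bool) {n : ℕ} {x : List Bool}
    (hx : x.length ≤ 2 ^ n) : fW V p SJ c n x = true ↔ Wit (V c) (p c) x (ofL SJ) := by
  unfold fW Wit
  simp only [List.any_eq_true, mem_strs, Bool.and_eq_true, decide_eq_true_eq]
  constructor
  · rintro ⟨y, _, h1, h2⟩
    exact ⟨y, h1, h2⟩
  · rintro ⟨y, h1, h2⟩
    exact ⟨y, h1.trans (eval_mono _ hx), h1, h2⟩

/-- the error event, for finite oracles -/
def fE (SB S : List (List Bool)) (n : ℕ) : Bool :=
  (strs (2 ^ n)).any fun x => fW V p (jl S SB) false n x && fW V p (jl S SB) true n x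

theorem fE_iff (SB S : List (List Bool)) (n : ℕ) :
    fE V p SB S n = true ↔ ofL S ∈ Err (ofL SB) V p n := by
  unfold fE Err
  simp only [List.any_eq_true, mem_strs, Bool.and_eq_true, Set.mem_ofPred_eq, Bool.forall_bool]
  refine exists_congr fun x => and_congr_right fun hx => ?_
  rw [fW_iff V p _ _ hx, fW_iff V p _ _ hx, ofL_jl]

variable {V p}

theorem p_fW {α : Type} [TEnc α] {SJ : α → List (List Bool)} {n N : α → ℕ} {x : α → List Bool}
    (c : Bool) (hSJ : Poly SJ) (hn : UPoly n) (hN : UPoly N) (hx : Poly x)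
    (h0 : ∀ a, 2 ^ (n a) ≤ N a) (h : ∀ a, 2 ^ ((p c).eval (2 ^ (n a))) ≤ N a) :
    Poly (fun a => fW V p (SJ a) c (n a) (x a)) := by
  have hn' : UPoly (fun a => 2 ^ (n a)) := u_pow hn hN h0
  have h1 : Poly (fun p : α × List Bool => p.1) := Poly.fst Poly.id
  have h2 : Poly (fun p : α × List Bool => p.2) := Poly.snd Poly.id
  refine Poly.any (p := fun a y => decide (y.length ≤ (p c).eval (x a).length) &&
    decide ((V c).out (ofL (SJ a)) (pairBits (x a) y) = some [true]))
    (p_strs (hn'.eval (p c)) hN h) ?_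
  refine Poly.and ?_ ?_
  · exact (Poly.decide_le (UPoly.toPoly (UPoly.length h2))
        (UPoly.toPoly ((UPoly.length (hx.comp h1)).eval (p c)))).congr
          fun q => decide_eq_decide.2 Iff.rfl
  · exact (Poly.decide_eq (p_out (V c) (hSJ.comp h1) (H622R2.poly_pairBits (hx.comp h1) h2))
        (NPC.Poly.const (some [true]))).congr fun q => decide_eq_decide.2 Iff.rfl

theorem p_fE {α : Type} [TEnc α] {SB S : α → List (List Bool)} {n N : α → ℕ}
    (hSB : Poly SB) (hS : Poly S) (hn : UPoly n) (hN : UPoly N)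
    (h0 : ∀ a, 2 ^ (2 ^ (n a)) ≤ N a) (h : ∀ c a, 2 ^ ((p c).eval (2 ^ (n a))) ≤ N a) :
    Poly (fun a => fE V p (SB a) (S a) (n a)) := by
  have h0' : ∀ a, 2 ^ (n a) ≤ N a := fun a =>
    (Nat.pow_le_pow_right (by norm_num) Nat.lt_two_pow_self.le).trans (h0 a)
  have hn' : UPoly (fun a => 2 ^ (n a)) := u_pow hn hN h0'
  have h1 : Poly (fun p : α × List Bool => p.1) := Poly.fst Poly.id
  have h2 : Poly (fun p : α × List Bool => p.2) := Poly.snd Poly.id
  refine Poly.any (p := fun a x => fW V p (jl (S a) (SB a)) false (n a) x &&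
    fW V p (jl (S a) (SB a)) true (n a) x) (p_strs hn' hN h0) ?_
  exact Poly.and
    (p_fW (SJ := fun q : α × List Bool => jl (S q.1) (SB q.1)) (n := fun q => n q.1)
      (N := fun q => N q.1) (x := fun q => q.2) false (p_jl (hS.comp h1) (hSB.comp h1))
      (hn.comp h1) (hN.comp h1) h2 (fun q => h0' q.1) (fun q => h false q.1))
    (p_fW (SJ := fun q : α × List Bool => jl (S q.1) (SB q.1)) (n := fun q => n q.1)
      (N := fun q => N q.1) (x := fun q => q.2) true (p_jl (hS.comp h1) (hSB.comp h1))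
      (hn.comp h1) (hN.comp h1) h2 (fun q => h0' q.1) (fun q => h true q.1))

end

/-! ### the bounding polynomial -/

/-- the properties of the bounding polynomial -/
structure Bd (V : Bool → Alg) (p : Bool → Polynomial ℕ) (b : Polynomial ℕ) : Prop where
  le_eval : ∀ m, m ≤ b.eval m
  le_eval' : ∀ m, 4 * m + 4 ≤ b.eval m
  locErr : ∀ B n, Loc {x | x.length ≤ b.eval (2 ^ n)} (Err B V p n)
  congr : ∀ (A B B' : Oracle) (n : ℕ), (∀ y : List Bool, y.length ≤ b.eval (2 ^ n) → B y = B' y) →
    (A ∈ Err B V p n ↔ A ∈ Err B' V p n)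
  p_le : ∀ c m, (p c).eval m ≤ b.eval m

theorem jn_congrB {A B B' : Oracle} {N : ℕ} (h : ∀ x : List Bool, x.length ≤ N → B x = B' x) :
    ∀ x : List Bool, x.length ≤ N → jn A B x = jn A B' x := by
  intro x hx
  match x with
  | [] => rfl
  | true :: y => rfl
  | false :: y =>
    show B y = B' y
    apply h
    rw [List.length_cons] at hx
    omega

theorem wit_congrB (V : Alg) (p : Polynomial ℕ) : ∃ q : Polynomial ℕ,
    ∀ (A B B' : Oracle) (N : ℕ) (x : List Bool), x.length ≤ N →
    (∀ y : List Bool, y.length ≤ q.eval N → B y = B' y) →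
    (Wit V p x (jn A B) ↔ Wit V p x (jn A B')) := by
  obtain ⟨qV, hqV⟩ := V.out_congr
  obtain ⟨q, hq⟩ : ∃ q : Polynomial ℕ,
    q = qV.comp (Polynomial.C 2 * Polynomial.X + Polynomial.C 1 + p) := ⟨_, rfl⟩
  refine ⟨q, fun A B B' N x hx h => ?_⟩
  unfold Wit
  refine exists_congr fun y => and_congr_right fun hy => ?_
  have h1 : V.out (jn A B) (pairBits x y) = V.out (jn A B') (pairBits x y) := by
    apply hqV _ _ _ ((Polynomial.C 2 * Polynomial.X + Polynomial.C 1 + p).eval N)
    · rw [Pool.Agent.H628R3.RO.length_pairBits]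
      have h3 := eval_mono p hx
      simp only [Polynomial.eval_add, Polynomial.eval_mul, Polynomial.eval_C, Polynomial.eval_X]
      omega
    · intro z hz
      refine jn_congrB (N := q.eval N) h z ?_
      rw [hq, Polynomial.eval_comp]
      exact hz
  rw [h1]

theorem exists_Bd (V : Bool → Alg) (p : Bool → Polynomial ℕ) : ∃ b, Bd V p b := by
  obtain ⟨b0, h0⟩ := loc_Err V p
  obtain ⟨q0, k0⟩ := wit_congrB (V false) (p false)
  obtain ⟨q1, k1⟩ := wit_congrB (V true) (p true)
  refine ⟨b0 + q0 + q1 + p false + p true + Polynomial.C 4 * Polynomial.X + Polynomial.C 4,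
    ?_, ?_, ?_, ?_, ?_⟩
  · intro m
    simp only [Polynomial.eval_add, Polynomial.eval_mul, Polynomial.eval_C, Polynomial.eval_X]
    omega
  · intro m
    simp only [Polynomial.eval_add, Polynomial.eval_mul, Polynomial.eval_C, Polynomial.eval_X]
    omega
  · intro B n
    refine M2.Loc.mono (h0 B n) fun x hx => ?_
    simp only [Set.mem_ofPred_eq, Polynomial.eval_add] at hx ⊢
    omega
  · intro A B B' n h
    unfold Err
    simp only [Set.mem_ofPred_eq]
    refine exists_congr fun x => and_congr_right fun hx => forall_congr' fun c => ?_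
    cases c
    · apply k0 A B B' (2 ^ n) x hx
      intro y hy
      apply h
      simp only [Polynomial.eval_add]
      omega
    · apply k1 A B B' (2 ^ n) x hx
      intro y hy
      apply h
      simp only [Polynomial.eval_add]
      omega
  · intro c m
    simp only [Polynomial.eval_add]
    cases c <;> omega

/-! ### the check, for a finite base oracle -/

section

variable (V : Bool → Alg) (p : Bool → Polynomial ℕ) (t : ℕ) (L : List (List Bool))

/-- the check with a finite base oracle -/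
noncomputable def cks (SB : List (List Bool)) (n j : ℕ) : Bool :=
  chk Bad (fun n _ => Err (ofL SB) V p n) t L n j

variable {V p}

theorem cks_eq {b : Polynomial ℕ} (hb : Bd V p b) (SB : List (List Bool)) {n j : ℕ} (ht : t < n)
    (hj : j ≤ n) : cks V p t L SB n j =
      chkC (fun S => fB S n j) (fun S => fE V p SB S n) t L (b.eval (2 ^ n)) := by
  unfold cks
  refine chk_eq (Err := fun n _ => Err (ofL SB) V p n) ?_ (hb.locErr _ n) ?_
    (fun S => fB_iff S n j) (fun S => fE_iff V p SB S n)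
  · have h1 : n < 2 ^ n := Nat.lt_two_pow_self
    have h2 := hb.le_eval (2 ^ n)
    omega
  · refine M2.Loc.mono (loc_Bad n j) fun x hx => ?_
    have h1 := length_le_spotsB hj x hx
    have h2 := hb.le_eval' (2 ^ n)
    have h3 : n < 2 ^ n := Nat.lt_two_pow_self
    simp only [Set.mem_ofPred_eq]
    omega

theorem p_cks {b : Polynomial ℕ} (hb : Bd V p b) {α : Type} [TEnc α]
    {SB : α → List (List Bool)} {n j N : α → ℕ} (hSB : Poly SB) (hn : UPoly n) (hj : UPoly j)
    (hN : UPoly N) (ht : ∀ a, t < n a) (hjn : ∀ a, j a ≤ n a)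
    (hp : ∀ a, 2 ^ (2 ^ (b.eval (2 ^ (n a)) + 1)) ≤ N a) :
    Poly (fun a => cks V p t L (SB a) (n a) (j a)) := by
  have e0 : ∀ x : ℕ, x ≤ 2 ^ x := fun x => Nat.lt_two_pow_self.le
  have hN1 : ∀ a, 2 ^ (b.eval (2 ^ (n a))) ≤ N a := fun a => by
    refine le_trans (Nat.pow_le_pow_right (by norm_num) ?_) (hp a)
    exact (Nat.le_succ _).trans (e0 _)
  have hN2 : ∀ a, 2 ^ (2 ^ (n a)) ≤ N a := fun a =>
    (Nat.pow_le_pow_right (by norm_num) (hb.le_eval _)).trans (hN1 a)
  have hN0 : ∀ a, 2 ^ (n a) ≤ N a := fun a =>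
    (Nat.pow_le_pow_right (by norm_num) (e0 _)).trans (hN2 a)
  have hm : UPoly (fun a => b.eval (2 ^ (n a))) := UPoly.eval (u_pow hn hN hN0) b
  have hfst : Poly (fun p : α × List (List Bool) => p.1) := Poly.fst Poly.id
  have hsnd : Poly (fun p : α × List (List Bool) => p.2) := Poly.snd Poly.id
  have h1 := p_chkC t L (fB := fun a S => fB S (n a) (j a))
    (fE := fun a S => fE V p (SB a) S (n a)) hm hN hp
    (p_fB (S := fun q : α × List (List Bool) => q.2) (n := fun q => n q.1) (j := fun q => j q.1)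
      (N := fun q => N q.1) hsnd (hn.comp hfst) (hj.comp hfst) (hN.comp hfst) fun q => hN0 q.1)
    (p_fE (SB := fun q : α × List (List Bool) => SB q.1) (S := fun q => q.2) (n := fun q => n q.1)
      (N := fun q => N q.1) (hSB.comp hfst) hsnd (hn.comp hfst) (hN.comp hfst)
      (fun q => hN2 q.1) (fun c q => (Nat.pow_le_pow_right (by norm_num) (hb.p_le c _)).trans
        (hN1 q.1)))
  exact h1.congr fun a => (cks_eq t L hb (SB a) (ht a) (hjn a)).symm

/-! ### the schedule with the levels -/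

variable (V p)

/-- one step: go to the next block, if its number is at most `n` -/
noncomputable def stp (b : Polynomial ℕ) (SB : List (List Bool)) (n : ℕ) (s : ℕ × ℕ) : ℕ × ℕ :=
  if (okG b s.1 n && (decide (t < s.1) && decide (s.2 ≤ s.1))) = true then
    (Gt b s.1, s.2 + (cks V p t L SB s.1 s.2).toNat) else s

/-- the last block with number at most `n`, and its level -/
noncomputable def fin (b : Polynomial ℕ) (SB : List (List Bool)) (n : ℕ) : ℕ × ℕ :=
  (stp V p t L b SB n)^[n] (t + 4, 4)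

variable {V p}

theorem p_stp {b : Polynomial ℕ} (hb : Bd V p b) {α : Type} [TEnc α]
    {SB : α → List (List Bool)} {n : α → ℕ} (hSB : Poly SB) (hn : UPoly n) :
    Poly (fun q : α × ℕ × ℕ => stp V p t L b (SB q.1) (n q.1) q.2) := by
  have k0 : Poly (fun q : α × ℕ × ℕ => q.1) := Poly.fst Poly.id
  have k1 : Poly (fun q : α × ℕ × ℕ => q.2.1) := Poly.fst (Poly.snd Poly.id)
  have k2 : Poly (fun q : α × ℕ × ℕ => q.2.2) := Poly.snd (Poly.snd Poly.id)
  have hc : Poly (fun q : α × ℕ × ℕ =>
      okG b q.2.1 (n q.1) && (decide (t < q.2.1) && decide (q.2.2 ≤ q.2.1))) :=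
    Poly.and (p_okG k1 (hn.comp k0)) (Poly.and (Poly.decide_lt (NPC.Poly.const t) k1)
      (Poly.decide_le k2 k1))
  have hx : ∀ x : {q : α × ℕ × ℕ // (okG b q.2.1 (n q.1) &&
      (decide (t < q.2.1) && decide (q.2.2 ≤ q.2.1))) = true},
      Gt b x.1.2.1 ≤ n x.1.1 ∧ t < x.1.2.1 ∧ x.1.2.2 ≤ x.1.2.1 := by
    intro x
    have h := x.2
    rw [Bool.and_eq_true, Bool.and_eq_true, decide_eq_true_eq, decide_eq_true_eq,
      okG_iff hb.le_eval] at h
    exact h
  have hv := Poly.val (fun q : α × ℕ × ℕ => (okG b q.2.1 (n q.1) &&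
      (decide (t < q.2.1) && decide (q.2.2 ≤ q.2.1))) = true)
  have hN := hn.comp (k0.comp hv)
  have hT : UPoly (fun x : {q : α × ℕ × ℕ // (okG b q.2.1 (n q.1) &&
      (decide (t < q.2.1) && decide (q.2.2 ≤ q.2.1))) = true} => x.1.2.1) :=
    UPoly.of_le (k1.comp hv) hN fun x => (lt_Gt b _).le.trans (hx x).1
  have hl : UPoly (fun x : {q : α × ℕ × ℕ // (okG b q.2.1 (n q.1) &&
      (decide (t < q.2.1) && decide (q.2.2 ≤ q.2.1))) = true} => x.1.2.2) :=
    UPoly.of_le (k2.comp hv) hT fun x => (hx x).2.2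
  have e0 : ∀ x : ℕ, x ≤ 2 ^ x := fun x => Nat.lt_two_pow_self.le
  have hG : ∀ x : {q : α × ℕ × ℕ // (okG b q.2.1 (n q.1) &&
      (decide (t < q.2.1) && decide (q.2.2 ≤ q.2.1))) = true},
      2 ^ (2 ^ (b.eval (2 ^ x.1.2.1) + 1)) ≤ n x.1.1 := by
    intro x
    have h1 := (hx x).1
    unfold Gt at h1
    omega
  have hN1 : ∀ x : {q : α × ℕ × ℕ // (okG b q.2.1 (n q.1) &&
      (decide (t < q.2.1) && decide (q.2.2 ≤ q.2.1))) = true},
      2 ^ (b.eval (2 ^ x.1.2.1) + 1) ≤ n x.1.1 := fun x => (e0 _).trans (hG x)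
  have hN2 : ∀ x : {q : α × ℕ × ℕ // (okG b q.2.1 (n q.1) &&
      (decide (t < q.2.1) && decide (q.2.2 ≤ q.2.1))) = true},
      2 ^ x.1.2.1 ≤ n x.1.1 := fun x => by
    have h1 := hN1 x
    have h2 := e0 (b.eval (2 ^ x.1.2.1) + 1)
    have h3 := hb.le_eval (2 ^ x.1.2.1)
    omega
  have hGt : UPoly (fun x : {q : α × ℕ × ℕ // (okG b q.2.1 (n q.1) &&
      (decide (t < q.2.1) && decide (q.2.2 ≤ q.2.1))) = true} => Gt b x.1.2.1) := by
    have h1 := u_pow hT hN hN2
    have h2 := (h1.eval b).add (UPoly.const 1)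
    have h3 := u_pow h2 hN hN1
    have h4 := u_pow h3 hN hG
    exact (h4.add hT).add (UPoly.const 1)
  have hck := p_cks t L hb (SB := fun x : {q : α × ℕ × ℕ // (okG b q.2.1 (n q.1) &&
      (decide (t < q.2.1) && decide (q.2.2 ≤ q.2.1))) = true} => SB x.1.1)
      (hSB.comp (k0.comp hv)) hT hl hN (fun x => (hx x).2.1) (fun x => (hx x).2.2) hG
  have hto : Poly (fun b : Bool => b.toNat) := by
    refine (Poly.cond (Poly.id (α := Bool)) (NPC.Poly.const 1) (NPC.Poly.const 0)).congr fun b => ?_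
    cases b <;> rfl
  have hf := Poly.pair hGt.toPoly (Poly.add hl.toPoly (hto.comp hck))
  have hv' := Poly.val (fun q : α × ℕ × ℕ => (okG b q.2.1 (n q.1) &&
      (decide (t < q.2.1) && decide (q.2.2 ≤ q.2.1))) = false)
  refine (Poly.dcond (f := fun x : {q : α × ℕ × ℕ // (okG b q.2.1 (n q.1) &&
      (decide (t < q.2.1) && decide (q.2.2 ≤ q.2.1))) = true} =>
        (Gt b x.1.2.1, x.1.2.2 + (cks V p t L (SB x.1.1) x.1.2.1 x.1.2.2).toNat))
      (g := fun x : {q : α × ℕ × ℕ // (okG b q.2.1 (n q.1) &&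
      (decide (t < q.2.1) && decide (q.2.2 ≤ q.2.1))) = false} => x.1.2)
      hc hf ((Poly.snd Poly.id).comp hv')).congr fun q => ?_
  unfold stp
  split_ifs <;> rfl

end

end Pool.Agent.H96R.DP
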