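import Pool.Agent.H628R3.RO.D1
import Pool.Agent.H628R3.RO.D2
import Pool.Agent.H628R3.RO.BaseE

/-!
# Disjoint NP pairs relative to a random oracle: definitions

The random oracle `A` is joined with an arbitrary fixed oracle `B`. Block `n` of level `j` consists of
`2 * 2 ^ n` random values of `2 * n + j + 1` bits, one for each pair of a bit `b` and a string `w` of
length `n`. The languages `L₀` and `L₁` consist of the values with bit `0` and bit `1`.
-/

set_option autoImplicit false

namespace Pool.Agent.H96R.DP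

open MeasureTheory Pool.Agent.NPC Pool.Agent.H628R3.RO

/-- The join of two oracles. -/
def jn (A B : Oracle) : Oracle
  | [] => false
  | true :: y => A y
  | false :: y => B y

/-- The number of bits of a value in block `n` of level `j`. -/
def nb (n j : ℕ) : ℕ := 2 * n + j + 1

/-- The value of the candidate `κ`, with `m` bits. -/
def vl (m : ℕ) (κ : Cand) (A : Oracle) : List Bool := (List.range m).map fun i => A (pos κ.1 i κ.2)

/-- Two candidates have the same value. -/
def Same (m : ℕ) (κ κ' : Cand) : Set Oracle := {A | ∀ i < m, A (pos κ.1 i κ.2) = A (pos κ'.1 i κ'.2)}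

/-- all candidates of block `n` -/
def cn (n : ℕ) : Finset Cand := cands (Finset.range 2) n

/-- the strings of length `n` -/
def sn (n : ℕ) : Finset (List Bool) := Finset.univ.image (fun v : Fin n → Bool => List.ofFn v)

/-- Some value occurs in both halves of the block. -/
def Bad (n j : ℕ) : Set Oracle :=
  {A | ∃ w ∈ sn n, ∃ w' ∈ sn n, A ∈ Same (nb n j) (0, w) (1, w')}

/-- Two different candidates have the same value. -/
def Two (n j : ℕ) : Set Oracle := {A | ∃ κ ∈ cn n, ∃ κ' ∈ cn n, κ ≠ κ' ∧ A ∈ Same (nb n j) κ κ'}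

/-- The instance about the value `v` in block `n`. -/
def inst (n : ℕ) (v : List Bool) : List Bool := List.replicate n true ++ false :: v

/-- The candidate pair given by the verifiers `V` (and length bounds `p`) is not disjoint: there is a
common element of length at most `2 ^ n`. -/
def Err (B : Oracle) (V : Bool → Alg) (p : Bool → Polynomial ℕ) (n : ℕ) : Set Oracle :=
  {A | ∃ x : List Bool, x.length ≤ 2 ^ n ∧ ∀ b, Wit (V b) (p b) x (jn A B)}

/-- The reduction `r` works at block `n`. -/
def Good (B : Oracle) (V : Bool → Alg) (p : Bool → Polynomial ℕ) (r : Alg) (n j : ℕ) : Set Oracle :=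
  {A | ∀ b : Bool, ∀ w ∈ sn n, ∃ z, r.out (jn A B) (inst n (vl (nb n j) (b.toNat, w) A)) = some z ∧
    Wit (V b) (p b) z (jn A B)}

theorem mem_sn {n : ℕ} {w : List Bool} : w ∈ sn n ↔ w.length = n := by
  unfold sn
  rw [Finset.mem_image]
  constructor
  · rintro ⟨v, -, h⟩
    rw [← h, List.length_ofFn]
  · intro h
    subst h
    exact ⟨fun i => w.get i, Finset.mem_univ _, List.ofFn_get w⟩

theorem card_sn (n : ℕ) : (sn n).card = 2 ^ n := by
  unfold sn
  rw [Finset.card_image_of_injective _ List.ofFn_injective, Finset.card_univ]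
  simp

theorem mem_cn {n : ℕ} {κ : Cand} : κ ∈ cn n ↔ κ.1 < 2 ∧ κ.2.length = n := by
  unfold cn
  rw [mem_cands, Finset.mem_range]

theorem card_cn (n : ℕ) : (cn n).card = 2 * 2 ^ n := by
  unfold cn
  rw [card_cands, Finset.card_range]

theorem length_vl (m : ℕ) (κ : Cand) (A : Oracle) : (vl m κ A).length = m := by
  simp [vl]

theorem vl_eq_iff {m : ℕ} {κ κ' : Cand} {A A' : Oracle} :
    vl m κ A = vl m κ' A' ↔ ∀ i < m, A (pos κ.1 i κ.2) = A' (pos κ'.1 i κ'.2) := by
  unfold vl
  constructor
  · intro h i hi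
    have := List.map_inj_left.1 h i (List.mem_range.2 hi)
    exact this
  · intro h
    apply List.map_congr_left
    intro i hi
    exact h i (List.mem_range.1 hi)

theorem mem_Same {m : ℕ} {κ κ' : Cand} {A : Oracle} :
    A ∈ Same m κ κ' ↔ vl m κ A = vl m κ' A := by
  rw [vl_eq_iff]
  rfl

theorem length_inst (n : ℕ) (v : List Bool) : (inst n v).length = n + 1 + v.length := by
  unfold inst
  simp only [List.length_append, List.length_replicate, List.length_cons]
  omega

theorem lvl_inst (n : ℕ) (v : List Bool) : lvl (inst n v) = n := by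
  unfold lvl inst
  rw [takeWhile_repl, List.length_replicate]

theorem drop_inst (n : ℕ) (v : List Bool) : (inst n v).drop (n + 1) = v := by
  unfold inst
  rw [List.drop_append, List.length_replicate, List.drop_replicate]
  simp

theorem inst_inj {n n' : ℕ} {v v' : List Bool} (h : inst n v = inst n' v') : n = n' ∧ v = v' := by
  have h1 : n = n' := by rw [← lvl_inst n v, h, lvl_inst]
  subst h1
  exact ⟨rfl, by rw [← drop_inst n v, h, drop_inst]⟩

/-! ### locality -/

theorem loc_Same (m : ℕ) (κ κ' : Cand) :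
    Loc ((spots m κ ∪ spots m κ' : Finset (List Bool)) : Set (List Bool)) (Same m κ κ') := by
  intro A A' h
  unfold Same
  simp only [Set.mem_ofPred_eq]
  refine forall₂_congr fun i hi => ?_
  rw [h (pos κ.1 i κ.2), h (pos κ'.1 i κ'.2)]
  · rw [Finset.mem_coe, Finset.mem_union]
    exact Or.inr (M2.mem_spots.2 ⟨i, hi, rfl⟩)
  · rw [Finset.mem_coe, Finset.mem_union]
    exact Or.inl (M2.mem_spots.2 ⟨i, hi, rfl⟩)

theorem measurableSet_Same (m : ℕ) (κ κ' : Cand) : MeasurableSet (Same m κ κ') :=
  measurableSet_of_loc (Finset.finite_toSet _) (loc_Same m κ κ')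

/-- the strings of the block -/
def spotsB (n j : ℕ) : Finset (List Bool) := allSpots (nb n j) (cn n)

theorem mem_spotsB {n j : ℕ} {x : List Bool} :
    x ∈ spotsB n j ↔ ∃ κ ∈ cn n, ∃ i < nb n j, x = pos κ.1 i κ.2 := by
  unfold spotsB
  exact mem_allSpots

theorem lt_length_spotsB {n j : ℕ} : ∀ x ∈ spotsB n j, n < x.length := by
  intro x hx
  obtain ⟨κ, hκ, i, hi, rfl⟩ := mem_spotsB.1 hx
  rw [length_pos, (mem_cn.1 hκ).2]
  omega

theorem length_le_spotsB {n j : ℕ} (hj : j ≤ n) : ∀ x ∈ spotsB n j, x.length ≤ 4 * n + 4 := by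
  intro x hx
  obtain ⟨κ, hκ, i, hi, rfl⟩ := mem_spotsB.1 hx
  rw [length_pos, (mem_cn.1 hκ).2]
  have := (mem_cn.1 hκ).1
  unfold nb at hi
  omega

theorem disjoint_spotsB (n n' j j' : ℕ) (h : n ≠ n') : Disjoint (spotsB n j) (spotsB n' j') := by
  rw [Finset.disjoint_left]
  intro x hx hx'
  obtain ⟨κ, hκ, i, hi, rfl⟩ := mem_spotsB.1 hx
  obtain ⟨κ', hκ', i', hi', h2⟩ := mem_spotsB.1 hx'
  obtain ⟨-, -, h3⟩ := Pool.Agent.H628R3.RO.pos_inj h2
  apply h
  rw [← (mem_cn.1 hκ).2, ← (mem_cn.1 hκ').2, h3]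

theorem mem_cn_zero {n : ℕ} {w : List Bool} (h : w ∈ sn n) : ((0, w) : Cand) ∈ cn n :=
  mem_cn.2 ⟨by norm_num, mem_sn.1 h⟩

theorem mem_cn_one {n : ℕ} {w : List Bool} (h : w ∈ sn n) : ((1, w) : Cand) ∈ cn n :=
  mem_cn.2 ⟨by norm_num, mem_sn.1 h⟩

theorem Same_congr {n j : ℕ} {κ κ' : Cand} (hκ : κ ∈ cn n) (hκ' : κ' ∈ cn n) {A A' : Oracle}
    (h : ∀ x ∈ (spotsB n j : Set (List Bool)), A x = A' x) :
    A ∈ Same (nb n j) κ κ' ↔ A' ∈ Same (nb n j) κ κ' := by
  unfold Same
  simp only [Set.mem_ofPred_eq]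
  refine forall₂_congr fun i hi => ?_
  rw [h (pos κ.1 i κ.2) (mem_spotsB.2 ⟨κ, hκ, i, hi, rfl⟩),
    h (pos κ'.1 i κ'.2) (mem_spotsB.2 ⟨κ', hκ', i, hi, rfl⟩)]

theorem loc_Bad (n j : ℕ) : Loc (spotsB n j : Set (List Bool)) (Bad n j) := by
  intro A A' h
  unfold Bad
  simp only [Set.mem_ofPred_eq]
  refine exists_congr fun w => and_congr_right fun hw => exists_congr fun w' =>
    and_congr_right fun hw' => ?_
  exact Same_congr (mem_cn_zero hw) (mem_cn_one hw') h

theorem loc_Two (n j : ℕ) : Loc (spotsB n j : Set (List Bool)) (Two n j) := by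
  intro A A' h
  unfold Two
  simp only [Set.mem_ofPred_eq]
  refine exists_congr fun κ => and_congr_right fun hκ => exists_congr fun κ' =>
    and_congr_right fun hκ' => and_congr_right fun _ => ?_
  exact Same_congr hκ hκ' h

theorem measurableSet_Bad (n j : ℕ) : MeasurableSet (Bad n j) :=
  measurableSet_of_loc (Finset.finite_toSet _) (loc_Bad n j)

theorem measurableSet_Two (n j : ℕ) : MeasurableSet (Two n j) :=
  measurableSet_of_loc (Finset.finite_toSet _) (loc_Two n j)

theorem jn_congr {A A' B : Oracle} {N : ℕ} (h : ∀ x : List Bool, x.length ≤ N → A x = A' x) :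
    ∀ x : List Bool, x.length ≤ N → jn A B x = jn A' B x := by
  intro x hx
  match x with
  | [] => rfl
  | true :: y =>
    show A y = A' y
    apply h
    rw [List.length_cons] at hx
    omega
  | false :: y => rfl

theorem wit_congr (V : Alg) (p : Polynomial ℕ) : ∃ q : Polynomial ℕ, (∀ m, m ≤ q.eval m) ∧
    ∀ (B A A' : Oracle) (N : ℕ) (x : List Bool), x.length ≤ N →
    (∀ y : List Bool, y.length ≤ q.eval N → A y = A' y) →
    (Wit V p x (jn A B) ↔ Wit V p x (jn A' B)) := by
  obtain ⟨qV, hqV⟩ := V.out_congr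
  obtain ⟨q, hq⟩ : ∃ q : Polynomial ℕ,
    q = qV.comp (Polynomial.C 2 * Polynomial.X + Polynomial.C 1 + p) + Polynomial.X := ⟨_, rfl⟩
  refine ⟨q, fun m => ?_, fun B A A' N x hx h => ?_⟩
  · rw [hq]
    simp only [Polynomial.eval_add, Polynomial.eval_X]
    omega
  · unfold Wit
    refine exists_congr fun y => and_congr_right fun hy => ?_
    have h1 : V.out (jn A B) (pairBits x y) = V.out (jn A' B) (pairBits x y) := by
      apply hqV _ _ _ ((Polynomial.C 2 * Polynomial.X + Polynomial.C 1 + p).eval N)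
      · rw [length_pairBits]
        have h3 := eval_mono p hx
        simp only [Polynomial.eval_add, Polynomial.eval_mul, Polynomial.eval_C, Polynomial.eval_X]
        omega
      · intro z hz
        refine jn_congr (N := q.eval N) h z ?_
        rw [hq, Polynomial.eval_add, Polynomial.eval_comp]
        omega
    rw [h1]

theorem loc_Err (V : Bool → Alg) (p : Bool → Polynomial ℕ) : ∃ b : Polynomial ℕ, ∀ (B : Oracle) (n : ℕ),
    Loc {x | x.length ≤ b.eval (2 ^ n)} (Err B V p n) := by
  obtain ⟨q0, -, h0⟩ := wit_congr (V false) (p false)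
  obtain ⟨q1, -, h1⟩ := wit_congr (V true) (p true)
  refine ⟨q0 + q1, fun B n => ?_⟩
  intro A A' h
  unfold Err
  simp only [Set.mem_ofPred_eq]
  refine exists_congr fun x => and_congr_right fun hx => forall_congr' fun b => ?_
  cases b
  · apply h0 B A A' (2 ^ n) x hx
    intro y hy
    apply h
    simp only [Set.mem_ofPred_eq, Polynomial.eval_add]
    omega
  · apply h1 B A A' (2 ^ n) x hx
    intro y hy
    apply h
    simp only [Set.mem_ofPred_eq, Polynomial.eval_add]
    omega

theorem finite_le (N : ℕ) : {x : List Bool | x.length ≤ N}.Finite := finite_length_le N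

theorem loc_Good (V : Bool → Alg) (p : Bool → Polynomial ℕ) (r : Alg) (B : Oracle) (n j : ℕ) :
    ∃ N : ℕ, Loc {x | x.length ≤ N} (Good B V p r n j) := by
  obtain ⟨q0, -, h0⟩ := wit_congr (V false) (p false)
  obtain ⟨q1, -, h1⟩ := wit_congr (V true) (p true)
  obtain ⟨qr, hqr⟩ := r.out_congr
  obtain ⟨br, hbr⟩ := r.out_length
  obtain ⟨N, hN⟩ : ∃ N, N = n + 1 + nb n j := ⟨_, rfl⟩
  refine ⟨q0.eval (br.eval N) + q1.eval (br.eval N) + qr.eval N + (nb n j + n + 4), ?_⟩
  intro A A' h
  have h' : ∀ y : List Bool, y.length ≤ q0.eval (br.eval N) + q1.eval (br.eval N) + qr.eval N +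
      (nb n j + n + 4) → A y = A' y := fun y hy => h y hy
  unfold Good
  simp only [Set.mem_ofPred_eq]
  refine forall_congr' fun b => forall₂_congr fun w hw => exists_congr fun z => ?_
  have e1 : vl (nb n j) (b.toNat, w) A = vl (nb n j) (b.toNat, w) A' := by
    rw [vl_eq_iff]
    intro i hi
    apply h'
    rw [length_pos, mem_sn.1 hw]
    have : b.toNat ≤ 1 := Bool.toNat_le b
    simp only
    omega
  have hlen : (inst n (vl (nb n j) (b.toNat, w) A')).length = N := by
    rw [length_inst, length_vl, hN]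
  have e2 : r.out (jn A B) (inst n (vl (nb n j) (b.toNat, w) A)) =
      r.out (jn A' B) (inst n (vl (nb n j) (b.toNat, w) A')) := by
    rw [e1]
    apply hqr _ _ _ N hlen.le
    apply jn_congr
    intro y hy
    apply h'
    omega
  rw [e2]
  refine and_congr_right fun hz => ?_
  have hzl : z.length ≤ br.eval N := by
    have := hbr _ _ _ hz
    rwa [hlen] at this
  cases b
  · apply h0 B A A' _ z hzl
    intro y hy
    apply h'
    omega
  · apply h1 B A A' _ z hzl
    intro y hy
    apply h'
    omega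

theorem measurableSet_Err (V : Bool → Alg) (p : Bool → Polynomial ℕ) (B : Oracle) (n : ℕ) :
    MeasurableSet (Err B V p n) := by
  obtain ⟨b, hb⟩ := loc_Err V p
  exact measurableSet_of_loc (finite_le _) (hb B n)

theorem measurableSet_Good (V : Bool → Alg) (p : Bool → Polynomial ℕ) (r : Alg) (B : Oracle)
    (n j : ℕ) : MeasurableSet (Good B V p r n j) := by
  obtain ⟨N, hN⟩ := loc_Good V p r B n j
  exact measurableSet_of_loc (finite_le _) hN

end Pool.Agent.H96R.DP
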