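import Pool.Agent.H96R.DP.Proc
import Pool.Agent.H628R3.RO.N1
import Mathlib.MeasureTheory.Measure.MeasuredSets

/-!
# Approximation by events depending on finitely many strings

If a countable family of reductions works for most oracles of a cylinder, then almost all checks
fail, which contradicts the existence of infinitely many successful checks.
-/

set_option autoImplicit false

namespace Pool.Agent.H96R.DP

open MeasureTheory Pool.Agent.NPC Pool.Agent.H628R3.RO Filter
open scoped symmDiff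

/-- the events depending on finitely many strings -/
def LocR : Set (Set Oracle) := {S | ∃ N : ℕ, Loc {x | x.length ≤ N} S}

theorem loc_mono_le {N N' : ℕ} (h : N ≤ N') {S : Set Oracle} (hS : Loc {x | x.length ≤ N} S) :
    Loc {x | x.length ≤ N'} S :=
  M2.Loc.mono hS fun x hx => by
    simp only [Set.mem_ofPred_eq] at hx ⊢
    omega

theorem isSetRing_LocR : IsSetRing LocR where
  empty_mem := ⟨0, fun _ _ _ => Iff.rfl⟩
  union_mem := by
    rintro s t ⟨N, hN⟩ ⟨N', hN'⟩
    refine ⟨max N N', fun A A' h => ?_⟩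
    exact or_congr (loc_mono_le (le_max_left _ _) hN A A' h)
      (loc_mono_le (le_max_right _ _) hN' A A' h)
  sdiff_mem := by
    rintro s t ⟨N, hN⟩ ⟨N', hN'⟩
    refine ⟨max N N', fun A A' h => ?_⟩
    exact and_congr (loc_mono_le (le_max_left _ _) hN A A' h)
      (not_congr (loc_mono_le (le_max_right _ _) hN' A A' h))

theorem measurableSet_of_mem_LocR {S : Set Oracle} (h : S ∈ LocR) : MeasurableSet S := by
  obtain ⟨N, hN⟩ := h
  exact measurableSet_of_loc (finite_le N) hN

theorem generateFrom_LocR :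
    (MeasurableSpace.pi : MeasurableSpace Oracle) = MeasurableSpace.generateFrom LocR := by
  apply le_antisymm
  · refine iSup_le fun x => ?_
    rw [← measurable_iff_comap_le]
    intro T _
    apply MeasurableSpace.measurableSet_generateFrom
    refine ⟨x.length, fun A A' h => ?_⟩
    have : A x = A' x := h x (by simp only [Set.mem_ofPred_eq]; exact le_rfl)
    simp only [Set.mem_preimage, this]
  · apply MeasurableSpace.generateFrom_le
    intro S hS
    exact measurableSet_of_mem_LocR hS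

theorem approx {W : Set Oracle} (hW : MeasurableSet W) {δ : ℝ} (hδ : 0 < δ) :
    ∃ (N : ℕ) (U : Set Oracle), Loc {x | x.length ≤ N} U ∧ prob (W \ U) ≤ δ ∧
      prob (U \ W) ≤ δ := by
  obtain ⟨U, ⟨N, hN⟩, hU⟩ := exists_measure_symmDiff_lt_of_generateFrom_isSetRing
    (μ := randomOracle) isSetRing_LocR
    ⟨{Set.univ}, Set.countable_singleton _, by
      rw [Set.singleton_subset_iff]
      exact ⟨0, fun _ _ _ => Iff.rfl⟩, by simp⟩ generateFrom_LocR hW
    (ENNReal.ofReal_pos.2 hδ)
  have h1 : prob (U ∆ W) ≤ δ := by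
    unfold prob
    rw [measureReal_def]
    exact ENNReal.toReal_le_of_le_ofReal hδ.le hU.le
  refine ⟨N, U, hN, (prob_mono ?_).trans h1, (prob_mono ?_).trans h1⟩
  · exact Set.subset_union_right
  · exact Set.subset_union_left

/-! ### cylinders -/

theorem cyl_eq (t : ℕ) (L : List (List Bool)) :
    cyl t L = {A : Oracle | ∀ x ∈ strs t, A x = ofL L x} := by
  ext A
  unfold cyl
  simp only [Set.mem_ofPred_eq, mem_strs]

theorem prob_cyl_pos (t : ℕ) (L : List (List Bool)) : 0 < prob (cyl t L) := by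
  rw [cyl_eq, prob_agree _ (nodup_strs t)]
  positivity

theorem disjoint_cyl {t : ℕ} {l l' : List (List Bool)} (hl : l.Sublist (strs t))
    (hl' : l'.Sublist (strs t)) (h : l ≠ l') : Disjoint (cyl t l) (cyl t l') := by
  rw [Set.disjoint_left]
  intro A hA hA'
  apply h
  rw [← filter_sublist hl (nodup_strs t), ← filter_sublist hl' (nodup_strs t)]
  apply List.filter_congr
  intro x hx
  have h1 : A x = ofL l x := hA x (mem_strs.1 hx)
  have h2 : A x = ofL l' x := hA' x (mem_strs.1 hx)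
  rw [h1] at h2
  exact h2

theorem prob_sum_cyl (t : ℕ) {S : Set Oracle} (hS : MeasurableSet S) :
    prob S = ∑ l ∈ (strs t).sublists.toFinset, prob (cyl t l ∩ S) := by
  have h1 : S = ⋃ l ∈ (strs t).sublists.toFinset, (cyl t l ∩ S) := by
    ext A
    simp only [Set.mem_iUnion, List.mem_toFinset, List.mem_sublists, Set.mem_inter_iff, exists_prop]
    constructor
    · intro hA
      refine ⟨(strs t).filter A, List.filter_sublist, fun x hx => ?_, hA⟩
      exact (ofL_filter A (mem_strs.2 hx)).symm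
    · rintro ⟨_, _, _, h⟩
      exact h
  conv_lhs => rw [h1]
  unfold prob
  apply measureReal_biUnion_finset
  · intro l hl l' hl' hne
    simp only [Finset.mem_coe, List.mem_toFinset, List.mem_sublists] at hl hl'
    exact (disjoint_cyl hl hl' hne).mono Set.inter_subset_left Set.inter_subset_left
  · intro l _
    exact (measurableSet_cyl t l).inter hS
  · intro l _
    exact measure_ne_top _ _

theorem prob_inter_add_sdiff (S : Set Oracle) {T : Set Oracle} (hT : MeasurableSet T) :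
    prob (S ∩ T) + prob (S \ T) = prob S := measureReal_inter_add_sdiff (μ := randomOracle) hT

/-- Lebesgue's density theorem for cylinders -/
theorem exists_cyl {D : Set Oracle} (hD : MeasurableSet D) (h0 : 0 < prob D) :
    ∃ (t : ℕ) (L : List (List Bool)), 7 / 8 * prob (cyl t L) ≤ prob (cyl t L ∩ D) := by
  by_contra hcon
  push Not at hcon
  obtain ⟨N, U, hU, h1, h2⟩ := approx hD (δ := prob D / 16) (by positivity)
  have hUm : MeasurableSet U := measurableSet_of_loc (finite_le N) hU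
  have h3 : prob (U ∩ D) ≤ 7 / 8 * prob U := by
    rw [prob_sum_cyl N (hUm.inter hD), prob_sum_cyl N hUm, Finset.mul_sum]
    refine Finset.sum_le_sum fun l _ => ?_
    by_cases hl : ofL l ∈ U
    · have h4 : cyl N l ∩ U = cyl N l := by
        apply Set.inter_eq_left.2
        intro A hA
        exact (hU A (ofL l) fun x hx => hA x hx).2 hl
      rw [← Set.inter_assoc, h4]
      exact (hcon N l).le
    · have h4 : cyl N l ∩ U = ∅ := by
        rw [Set.eq_empty_iff_forall_notMem]
        rintro A ⟨hA, hA'⟩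
        exact hl ((hU A (ofL l) fun x hx => hA x hx).1 hA')
      rw [← Set.inter_assoc, h4]
      simp [prob]
  have h4 := prob_inter_add_sdiff U hD
  have h5 := prob_inter_add_sdiff D hUm
  have h6 : prob (D ∩ U) ≤ prob U := prob_mono Set.inter_subset_right
  linarith

/-! ### the checks fail -/

section

variable (B : Oracle) (V : Bool → Alg) (p : Bool → Polynomial ℕ) (b : Polynomial ℕ) (t : ℕ)
  (L : List (List Bool))

/-- the reduction `r` works at all blocks from `k₀` on -/
def GG (r : Alg) (k₀ : ℕ) : Set Oracle :=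
  {A | ∀ k ≥ k₀, A ∈ Good B V p r (Tt b t k) (lv B V p b t L k)}

theorem measurableSet_GG (r : Alg) (k₀ : ℕ) : MeasurableSet (GG B V p b t L r k₀) := by
  have h : GG B V p b t L r k₀ =
      ⋂ k ≥ k₀, Good B V p r (Tt b t k) (lv B V p b t L k) := by
    ext A
    simp only [GG, Set.mem_ofPred_eq, Set.mem_iInter]
  rw [h]
  exact MeasurableSet.iInter fun k => MeasurableSet.iInter fun _ => measurableSet_Good V p r B _ _

theorem le_Tt (k : ℕ) : k ≤ Tt b t k := (Tt_strictMono b t).le_apply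

theorem mul_poly_le_two_pow (P : Polynomial ℕ) :
    ∀ C : ℕ, ∃ n0, ∀ n ≥ n0, C * P.eval n ≤ 2 ^ n := by
  induction P using Polynomial.induction_on' with
  | add p q hp hq =>
    intro C
    obtain ⟨a, ha⟩ := hp (2 * C)
    obtain ⟨b, hb⟩ := hq (2 * C)
    refine ⟨max a b, fun n hn => ?_⟩
    have h1 := ha n (le_trans (le_max_left _ _) hn)
    have h2 := hb n (le_trans (le_max_right _ _) hn)
    rw [Polynomial.eval_add]
    nlinarith
  | monomial k a =>
    intro C
    have h := tendsto_pow_const_div_const_pow_of_one_lt k (show (1 : ℝ) < 2 by norm_num)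
    have h2 : ∀ᶠ n : ℕ in Filter.atTop, (n : ℝ) ^ k / 2 ^ n < 1 / ((C : ℝ) * a + 1) :=
      h.eventually (gt_mem_nhds (by positivity))
    obtain ⟨n0, hn0⟩ := Filter.eventually_atTop.mp h2
    refine ⟨n0, fun n hn => ?_⟩
    have h3 := hn0 n hn
    rw [div_lt_div_iff₀ (by positivity) (by positivity)] at h3
    rw [Polynomial.eval_monomial]
    have h4 : ((C * (a * n ^ k) : ℕ) : ℝ) ≤ ((2 ^ n : ℕ) : ℝ) := by
      push_cast
      have : (0 : ℝ) ≤ (n : ℝ) ^ k := by positivity
      nlinarith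
    exact_mod_cast h4

/-- the question bound for the key inequality -/
theorem exists_q (r : Alg) : ∃ q : ℕ → ℕ, (∀ δ : ℝ, 0 < δ → ∃ N₀, ∀ n ≥ N₀,
    q n ≤ 2 ^ n ∧ 2 * ((q n : ℝ) / 2 ^ n) ≤ δ) ∧
    ∀ n j, j ≤ n → ∀ (b : Bool) (A : Oracle) (x : List Bool), x.length = n + 1 + nb n j →
      (∃ z, r.out (jn A B) x = some z ∧ Wit (V b) (p b) z (jn A B)) →
      ∃ (z : List Bool) (Q : Finset (List Bool)), Q.card ≤ q n ∧ z.length ≤ q n ∧
        ∀ A' : Oracle, (∀ s ∈ Q, A' s = A s) →
          r.out (jn A' B) x = some z ∧ Wit (V b) (p b) z (jn A' B) := by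
  obtain ⟨q0, h0⟩ := touch (V false) (p false) r
  obtain ⟨q1, h1⟩ := touch (V true) (p true) r
  obtain ⟨Q, hQ⟩ : ∃ Q : Polynomial ℕ,
    Q = (q0 + q1).comp (Polynomial.C 4 * Polynomial.X + Polynomial.C 2) := ⟨_, rfl⟩
  refine ⟨fun n => Q.eval n, ?_, ?_⟩
  · intro δ hδ
    obtain ⟨C, hC⟩ := exists_nat_gt (2 / δ)
    obtain ⟨N₀, hN⟩ := mul_poly_le_two_pow Q (C + 1)
    refine ⟨N₀, fun n hn => ?_⟩
    have h2 := hN n hn
    refine ⟨by simp only; nlinarith [Nat.zero_le (C * Q.eval n)], ?_⟩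
    have h3 : ((C : ℝ) + 1) * (Q.eval n : ℕ) ≤ 2 ^ n := by exact_mod_cast h2
    have h4 : (0 : ℝ) < 2 ^ n := by positivity
    have h5 : (0 : ℝ) ≤ ((Q.eval n : ℕ) : ℝ) := Nat.cast_nonneg _
    rw [← mul_div_assoc, div_le_iff₀ h4]
    rw [div_lt_iff₀ hδ] at hC
    nlinarith [mul_le_mul_of_nonneg_right hC.le h5, mul_nonneg hδ.le h5,
      mul_le_mul_of_nonneg_left h3 hδ.le]
  · intro n j hj b A x hx h
    have h2 : x.length ≤ 4 * n + 2 := by
      rw [hx]
      unfold nb
      omega
    have e0 := eval_mono q0 h2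
    have e1 := eval_mono q1 h2
    have e2 : Q.eval n = q0.eval (4 * n + 2) + q1.eval (4 * n + 2) := by
      rw [hQ]
      simp only [Polynomial.eval_comp, Polynomial.eval_add, Polynomial.eval_mul, Polynomial.eval_C,
        Polynomial.eval_X]
    cases b
    · obtain ⟨z, S, a1, a2, a3⟩ := h0 B A x h
      exact ⟨z, S, by simp only; omega, by simp only; omega, a3⟩
    · obtain ⟨z, S, a1, a2, a3⟩ := h1 B A x h
      exact ⟨z, S, by simp only; omega, by simp only; omega, a3⟩

/-- a countable family of reductions, one after the other -/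
theorem key_fin {G : ℕ → Set Oracle} (hGm : ∀ i, MeasurableSet (G i))
    (hG : ∀ i, ∃ (r : Alg) (k₀ : ℕ), G i ⊆ GG B V p b t L r k₀) (m : ℕ) :
    ∀ (N : ℕ) (σ : Set Oracle), Loc {x | x.length ≤ N} σ → ∀ δ : ℝ, 0 < δ → ∃ K, ∀ k ≥ K,
      eps (lv B V p b t L k) * (prob (σ ∩ ⋃ i < m, G i) - δ - eps (lv B V p b t L k) * prob σ) ≤
        prob (σ ∩ (Bad (Tt b t k) (lv B V p b t L k) ∩ Err B V p (Tt b t k))) := by
  induction m with
  | zero =>
    intro N σ hσ δ hδ
    refine ⟨0, fun k _ => ?_⟩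
    have h1 : prob (σ ∩ ⋃ i < 0, G i) = 0 := by
      simp [prob]
    rw [h1]
    have h2 := eps_pos (lv B V p b t L k)
    have h3 := prob_nonneg σ
    have h4 := prob_nonneg (σ ∩ (Bad (Tt b t k) (lv B V p b t L k) ∩ Err B V p (Tt b t k)))
    have h5 : 0 ≤ eps (lv B V p b t L k) * prob σ := by positivity
    nlinarith [mul_nonneg h2.le h5, mul_nonneg h2.le hδ.le]
  | succ m ih =>
    intro N σ hσ δ hδ
    have hσm : MeasurableSet σ := measurableSet_of_loc (finite_le N) hσ
    obtain ⟨N', U, hU, h1, h2⟩ := approx (hσm.inter (hGm m)) (δ := δ / 8) (by positivity)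
    have hUm : MeasurableSet U := measurableSet_of_loc (finite_le N') hU
    obtain ⟨r, k₀, hr⟩ := hG m
    obtain ⟨q, hq1, hq2⟩ := exists_q B V p r
    obtain ⟨N₀, hN₀⟩ := hq1 (δ / 8) (by positivity)
    have hs1 : Loc {x | x.length ≤ max N N'} (σ ∩ U) :=
      M2.Loc.inter (loc_mono_le (le_max_left _ _) hσ) (loc_mono_le (le_max_right _ _) hU)
    have hs2 : Loc {x | x.length ≤ max N N'} (σ \ U) :=
      M2.Loc.inter (loc_mono_le (le_max_left _ _) hσ)
        (M2.Loc.compl (loc_mono_le (le_max_right _ _) hU))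
    obtain ⟨K, hK⟩ := ih (max N N') (σ \ U) hs2 (δ / 8) (by positivity)
    refine ⟨max K (max (max N N') (max N₀ k₀)), fun k hk => ?_⟩
    have hk1 : K ≤ k := (le_max_left _ _).trans hk
    have hk2 : max N N' ≤ k := (le_max_left _ _).trans ((le_max_right _ _).trans hk)
    have hk3 : N₀ ≤ k := (le_max_left _ _).trans ((le_max_right _ _).trans
      ((le_max_right _ _).trans hk))
    have hk4 : k₀ ≤ k := (le_max_right _ _).trans ((le_max_right _ _).trans
      ((le_max_right _ _).trans hk))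
    set n := Tt b t k with hn
    set j := lv B V p b t L k with hj
    have hkn : k ≤ n := le_Tt b t k
    have hjn : j ≤ n := lv_le_Tt B V p b t L k
    have e1 := hK k hk1
    obtain ⟨e2, e3⟩ := hN₀ n (hk3.trans hkn)
    have e4 := key B V p r e2 (hq2 n j hjn) (loc_mono_le (hk2.trans hkn) hs1)
    have e5 : prob ((σ ∩ U) ∩ (Good B V p r n j)ᶜ) ≤ δ / 8 := by
      refine le_trans (prob_mono ?_) h2
      rintro A ⟨⟨a1, a2⟩, a3⟩
      refine ⟨a2, fun a4 => a3 ?_⟩
      exact hr a4.2 k hk4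
    have e6 : prob (σ ∩ ⋃ i < m + 1, G i) ≤ prob (σ ∩ U) + prob ((σ \ U) ∩ ⋃ i < m, G i) +
        δ / 8 := by
      have a1 : σ ∩ ⋃ i < m + 1, G i ⊆ ((σ ∩ U) ∪ ((σ \ U) ∩ ⋃ i < m, G i)) ∪
          ((σ ∩ G m) \ U) := by
        rintro A ⟨a2, a3⟩
        by_cases hA : A ∈ U
        · exact Or.inl (Or.inl ⟨a2, hA⟩)
        · simp only [Set.mem_iUnion, exists_prop] at a3
          obtain ⟨i, hi, a4⟩ := a3
          rcases Nat.lt_succ_iff_lt_or_eq.1 hi with h | h
          · refine Or.inl (Or.inr ⟨⟨a2, hA⟩, ?_⟩)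
            simp only [Set.mem_iUnion, exists_prop]
            exact ⟨i, h, a4⟩
          · subst h
            exact Or.inr ⟨⟨a2, a4⟩, hA⟩
      refine (prob_mono a1).trans ((prob_union_le _ _).trans ?_)
      have a2 := prob_union_le (σ ∩ U) ((σ \ U) ∩ ⋃ i < m, G i)
      linarith
    have e7 : prob ((σ ∩ U) ∩ (Bad n j ∩ Err B V p n)) +
        prob ((σ \ U) ∩ (Bad n j ∩ Err B V p n)) = prob (σ ∩ (Bad n j ∩ Err B V p n)) := by
      have a1 := prob_inter_add_sdiff (σ ∩ (Bad n j ∩ Err B V p n)) hUm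
      have a2 : (σ ∩ U) ∩ (Bad n j ∩ Err B V p n) = (σ ∩ (Bad n j ∩ Err B V p n)) ∩ U := by
        ext A; simp only [Set.mem_inter_iff]; tauto
      have a3 : (σ \ U) ∩ (Bad n j ∩ Err B V p n) = (σ ∩ (Bad n j ∩ Err B V p n)) \ U := by
        ext A; simp only [Set.mem_inter_iff, Set.mem_sdiff]; tauto
      rw [a2, a3]
      exact a1
    have e8 : prob (σ ∩ U) + prob (σ \ U) = prob σ := prob_inter_add_sdiff σ hUm
    have e9 := eps_pos j
    rw [← e7, ← e8]
    nlinarith
  
/-- almost all checks fail -/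
theorem ck_fail (hb : ∀ m, m ≤ b.eval m) {G : ℕ → Set Oracle} (hGm : ∀ i, MeasurableSet (G i))
    (hG : ∀ i, ∃ (r : Alg) (k₀ : ℕ), G i ⊆ GG B V p b t L r k₀)
    (h : 7 / 8 * prob (cyl t L) ≤ prob (cyl t L ∩ ⋃ i, G i)) :
    ∃ K, ∀ k ≥ K, ck B V p b t L k = false := by
  have hc := prob_cyl_pos t L
  -- finitely many reductions are enough
  obtain ⟨m, hm⟩ : ∃ m, 3 / 4 * prob (cyl t L) ≤ prob (cyl t L ∩ ⋃ i < m, G i) := by
    have h1 : Tendsto (fun m : ℕ => prob (cyl t L ∩ ⋃ i < m, G i)) atTop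
        (nhds (prob (⋃ m : ℕ, cyl t L ∩ ⋃ i < m, G i))) := by
      have h0 : Monotone (fun m : ℕ => cyl t L ∩ ⋃ i < m, G i) := by
        intro m m' hmm'
        apply Set.inter_subset_inter_right
        exact Set.iUnion_mono fun i => Set.iUnion_mono' fun hi => ⟨lt_of_lt_of_le hi hmm', le_rfl⟩
      exact (ENNReal.tendsto_toReal (measure_ne_top _ _)).comp
        (tendsto_measure_iUnion_atTop (μ := randomOracle) h0)
    have h2 : (⋃ m : ℕ, cyl t L ∩ ⋃ i < m, G i) = cyl t L ∩ ⋃ i, G i := by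
      rw [← Set.inter_iUnion]
      congr 1
      ext A
      simp only [Set.mem_iUnion, exists_prop]
      constructor
      · rintro ⟨m, i, _, h⟩
        exact ⟨i, h⟩
      · rintro ⟨i, h⟩
        exact ⟨i + 1, i, Nat.lt_succ_self i, h⟩
    rw [h2] at h1
    have h3 : 3 / 4 * prob (cyl t L) < prob (cyl t L ∩ ⋃ i, G i) := by linarith
    obtain ⟨m, hm⟩ := (h1.eventually (lt_mem_nhds h3)).exists
    exact ⟨m, hm.le⟩
  obtain ⟨K, hK⟩ := key_fin B V p b t L hGm hG m t (cyl t L) (loc_cyl t L)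
    (prob (cyl t L) / 8) (by positivity)
  refine ⟨K, fun k hk => ?_⟩
  have h1 := hK k hk
  have h2 := eps_lv_le B V p b t L k
  have h3 := eps_pos (lv B V p b t L k)
  have h4 : prob (cyl t L ∩ Bad (Tt b t k) (lv B V p b t L k)) ≤
      eps (lv B V p b t L k) * prob (cyl t L) :=
    prob_tau_Bad_le (loc_cyl_T b t L k)
  unfold ck chk
  rw [decide_eq_false_iff_not, not_lt]
  change prob (cyl t L ∩ Bad (Tt b t k) (lv B V p b t L k)) ≤
    4 * prob (cyl t L ∩ (Bad (Tt b t k) (lv B V p b t L k) ∩ Err B V p (Tt b t k)))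
  set e := eps (lv B V p b t L k) with he
  set c := prob (cyl t L) with hc'
  have h5 : e * (c / 4) ≤ e * (prob (cyl t L ∩ ⋃ i < m, G i) - c / 8 - e * c) := by
    apply mul_le_mul_of_nonneg_left _ h3.le
    nlinarith [mul_le_mul_of_nonneg_right h2 hc.le]
  linarith

end

end Pool.Agent.H96R.DP
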