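import Pool.Agent.H96R.DP.Key

/-!
# Probabilities of the bad events; the key inequality for one set of oracles
-/

set_option autoImplicit false

namespace Pool.Agent.H96R.DP

open MeasureTheory Pool.Agent.NPC Pool.Agent.H628R3.RO

/-- the probability scale of a block of level `j` -/
noncomputable def eps (j : ℕ) : ℝ := (1 / 2) ^ (j + 1)

theorem eps_pos (j : ℕ) : 0 < eps j := by unfold eps; positivity

theorem four_mul_half (n j : ℕ) : (4 : ℝ) ^ n * (1 / 2) ^ (nb n j) = eps j := by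
  unfold nb eps
  rw [show 2 * n + j + 1 = 2 * n + (j + 1) by ring, pow_add, pow_mul, ← mul_assoc, ← mul_pow]
  norm_num

theorem pl_mem_Same {m : ℕ} {κ κ₁ κ₂ : Cand} (h1 : κ₁ ≠ κ) (h2 : κ₂ ≠ κ) (I : Finset ℕ)
    (A : Oracle) : pl m κ I A ∈ Same m κ₁ κ₂ ↔ A ∈ Same m κ₁ κ₂ := by
  unfold Same
  simp only [Set.mem_ofPred_eq]
  refine forall₂_congr fun i hi => ?_
  rw [pl_off, pl_off]
  · intro h
    exact h2 (M2.spots_disjoint (M2.mem_spots.2 ⟨i, hi, rfl⟩) h)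
  · intro h
    exact h1 (M2.spots_disjoint (M2.mem_spots.2 ⟨i, hi, rfl⟩) h)

theorem prob_tau_Same {n j : ℕ} {τ : Set Oracle} (hτ : Loc {x | x.length ≤ n} τ) {κ κ' : Cand}
    (hκ' : κ' ∈ cn n) (h : κ ≠ κ') :
    prob (τ ∩ Same (nb n j) κ κ') = (1 / 2) ^ (nb n j) * prob τ :=
  prob_Same_indep (measurableSet_of_loc (finite_le _) hτ) _ h
    (fun A I => pl_mem_of_loc hτ hκ' I A)

theorem prob_tau_Same_Same {n j : ℕ} {τ : Set Oracle} (hτ : Loc {x | x.length ≤ n} τ)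
    {w₀ w₁ w₀' w₁' : List Bool} (h0 : w₀ ∈ sn n) (h1 : w₁ ∈ sn n) (h0' : w₀' ∈ sn n)
    (h1' : w₁' ∈ sn n) (hne : (w₀, w₁) ≠ (w₀', w₁')) :
    prob ((τ ∩ Same (nb n j) (0, w₀) (1, w₁)) ∩ Same (nb n j) (0, w₀') (1, w₁')) =
      (1 / 2) ^ (nb n j) * ((1 / 2) ^ (nb n j) * prob τ) := by
  have hτm : MeasurableSet τ := measurableSet_of_loc (finite_le _) hτ
  have c1 : ∀ a b : List Bool, ((0, a) : Cand) ≠ (1, b) := by
    intro a b h
    have := congrArg Prod.fst h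
    norm_num at this
  have hm : MeasurableSet (τ ∩ Same (nb n j) (0, w₀) (1, w₁)) :=
    hτm.inter (measurableSet_Same _ _ _)
  rw [← prob_tau_Same hτ (mem_cn_one h1) (c1 w₀ w₁)]
  by_cases h : w₁' = w₁
  · have h2 : w₀ ≠ w₀' := fun h3 => hne (by rw [h, h3])
    rw [Same_comm _ (0, w₀') (1, w₁')]
    apply prob_Same_indep hm _ (c1 w₀' w₁').symm
    intro A I
    rw [Set.mem_inter_iff, Set.mem_inter_iff, pl_mem_of_loc hτ (mem_cn_zero h0') I A,
      pl_mem_Same (fun h3 => h2 (congrArg Prod.snd h3)) (c1 w₀' w₁).symm]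
  · apply prob_Same_indep hm _ (c1 w₀' w₁')
    intro A I
    rw [Set.mem_inter_iff, Set.mem_inter_iff, pl_mem_of_loc hτ (mem_cn_one h1') I A,
      pl_mem_Same (c1 w₀ w₁') (fun h3 => h (congrArg Prod.snd h3).symm)]

theorem Bad_eq (n j : ℕ) : Bad n j =
    ⋃ π ∈ sn n ×ˢ sn n, Same (nb n j) (0, π.1) (1, π.2) := by
  ext A
  unfold Bad
  simp only [Set.mem_ofPred_eq, Set.mem_iUnion, Finset.mem_product, Prod.exists, exists_prop]
  constructor
  · rintro ⟨w, hw, w', hw', h⟩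
    exact ⟨w, w', ⟨hw, hw'⟩, h⟩
  · rintro ⟨w, w', ⟨hw, hw'⟩, h⟩
    exact ⟨w, hw, w', hw', h⟩

theorem sum_half (n j : ℕ) (c : ℝ) : ∑ _π ∈ sn n ×ˢ sn n, (1 / 2 : ℝ) ^ (nb n j) * c = eps j * c := by
  rw [Finset.sum_const, Finset.card_product, card_sn, nsmul_eq_mul, ← four_mul_half n j]
  push_cast
  have h4 : (4 : ℝ) ^ n = 2 ^ n * 2 ^ n := by rw [← mul_pow]; norm_num
  rw [h4]
  ring

theorem prob_tau_Bad_le {n j : ℕ} {τ : Set Oracle} (hτ : Loc {x | x.length ≤ n} τ) :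
    prob (τ ∩ Bad n j) ≤ eps j * prob τ := by
  rw [Bad_eq, Set.inter_iUnion₂]
  refine (prob_biUnion_le _ _).trans ?_
  rw [← sum_half n j]
  refine Finset.sum_le_sum fun π hπ => le_of_eq ?_
  rw [Finset.mem_product] at hπ
  apply prob_tau_Same hτ (mem_cn_one hπ.2)
  intro h
  have := congrArg Prod.fst h
  norm_num at this

/-- Bonferroni for the pairs of candidates -/
theorem sum_Same_le {n j : ℕ} {τ E : Set Oracle} (hτ : Loc {x | x.length ≤ n} τ)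
    (hE : MeasurableSet E) :
    ∑ π ∈ sn n ×ˢ sn n, prob ((E ∩ τ) ∩ Same (nb n j) (0, π.1) (1, π.2)) ≤
      prob ((E ∩ τ) ∩ Bad n j) + eps j ^ 2 * prob τ := by
  classical
  have hτm : MeasurableSet τ := measurableSet_of_loc (finite_le _) hτ
  have h1 := sum_le_union (sn n ×ˢ sn n)
    (fun π => (E ∩ τ) ∩ Same (nb n j) (0, π.1) (1, π.2))
    (c := (1 / 2) ^ (nb n j) * ((1 / 2) ^ (nb n j) * prob τ))
    (fun π _ => (hE.inter hτm).inter (measurableSet_Same _ _ _)) (by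
      intro π hπ π' hπ' hne
      rw [Finset.mem_product] at hπ hπ'
      rw [← prob_tau_Same_Same hτ hπ.1 hπ.2 hπ'.1 hπ'.2 hne]
      apply prob_mono
      rintro A ⟨⟨⟨-, a⟩, b⟩, ⟨-, c⟩⟩
      exact ⟨⟨a, b⟩, c⟩) (by have := prob_nonneg τ; positivity)
  refine h1.trans (le_of_eq ?_)
  rw [Bad_eq, Set.inter_iUnion₂, Finset.card_product, card_sn, ← four_mul_half n j]
  push_cast
  have h4 : (4 : ℝ) ^ n = 2 ^ n * 2 ^ n := by rw [← mul_pow]; norm_num
  rw [h4]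
  ring

theorem loc_univ (n : ℕ) : Loc {x | x.length ≤ n} (Set.univ : Set Oracle) :=
  fun _ _ _ => Iff.rfl

theorem prob_Bad_ge (n j : ℕ) : eps j - eps j ^ 2 ≤ prob (Bad n j) := by
  have h1 := sum_Same_le (n := n) (j := j) (E := Set.univ) (loc_univ n) MeasurableSet.univ
  have h2 : ∀ π ∈ sn n ×ˢ sn n, prob (((Set.univ : Set Oracle) ∩ Set.univ) ∩
      Same (nb n j) (0, π.1) (1, π.2)) = (1 / 2) ^ (nb n j) * 1 := by
    intro π hπ
    rw [Finset.mem_product] at hπ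
    have hne : ((0, π.1) : Cand) ≠ (1, π.2) := by
      intro h
      have := congrArg Prod.fst h
      norm_num at this
    have h3 := prob_tau_Same (j := j) (loc_univ n) (mem_cn_one hπ.2) hne
    rw [prob_univ'] at h3
    rw [Set.univ_inter]
    exact h3
  rw [Finset.sum_congr rfl h2, sum_half, mul_one, prob_univ', mul_one] at h1
  simp only [Set.univ_inter] at h1
  linarith

theorem prob_Bad_le (n j : ℕ) : prob (Bad n j) ≤ eps j := by
  have := prob_tau_Bad_le (n := n) (j := j) (loc_univ n)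
  rwa [Set.univ_inter, prob_univ', mul_one] at this

theorem prob_Two_le (n j : ℕ) : prob (Two n j) ≤ 4 * eps j := by
  classical
  have h1 : Two n j ⊆ ⋃ π ∈ (cn n ×ˢ cn n).filter (fun π => π.1 ≠ π.2),
      Same (nb n j) π.1 π.2 := by
    rintro A ⟨κ, hκ, κ', hκ', hne, h⟩
    simp only [Set.mem_iUnion]
    exact ⟨(κ, κ'), Finset.mem_filter.2 ⟨Finset.mem_product.2 ⟨hκ, hκ'⟩, hne⟩, h⟩
  refine (prob_mono h1).trans ((prob_biUnion_le _ _).trans ?_)
  have h2 : ∀ π ∈ (cn n ×ˢ cn n).filter (fun π => π.1 ≠ π.2), prob (Same (nb n j) π.1 π.2) =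
      (1 / 2) ^ (nb n j) := by
    intro π hπ
    rw [Finset.mem_filter, Finset.mem_product] at hπ
    have := prob_tau_Same (j := j) (loc_univ n) hπ.1.2 hπ.2
    rwa [Set.univ_inter, prob_univ', mul_one] at this
  rw [Finset.sum_congr rfl h2, Finset.sum_const, nsmul_eq_mul]
  have h3 : (((cn n ×ˢ cn n).filter (fun π => π.1 ≠ π.2)).card : ℝ) ≤ 4 * 4 ^ n := by
    have h4 : ((cn n ×ˢ cn n).filter (fun π => π.1 ≠ π.2)).card ≤ (2 * 2 ^ n) * (2 * 2 ^ n) := by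
      refine (Finset.card_filter_le _ _).trans (le_of_eq ?_)
      rw [Finset.card_product, card_cn]
    have h5 : (4 : ℝ) ^ n = 2 ^ n * 2 ^ n := by rw [← mul_pow]; norm_num
    calc (((cn n ×ˢ cn n).filter (fun π => π.1 ≠ π.2)).card : ℝ) ≤
          (((2 * 2 ^ n) * (2 * 2 ^ n) : ℕ) : ℝ) := by exact_mod_cast h4
      _ = 4 * 4 ^ n := by push_cast; rw [h5]; ring
  calc (((cn n ×ˢ cn n).filter (fun π => π.1 ≠ π.2)).card : ℝ) * (1 / 2) ^ (nb n j) ≤
        (4 * 4 ^ n) * (1 / 2) ^ (nb n j) := mul_le_mul_of_nonneg_right h3 (by positivity)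
    _ = 4 * eps j := by rw [← four_mul_half n j]; ring

/-- **The key inequality.** -/
theorem key (B : Oracle) (V : Bool → Alg) (p : Bool → Polynomial ℕ) (r : Alg)
    {n j q : ℕ} (hq : q ≤ 2 ^ n)
    (htouch : ∀ (b : Bool) (A : Oracle) (x : List Bool), x.length = n + 1 + nb n j →
      (∃ z, r.out (jn A B) x = some z ∧ Wit (V b) (p b) z (jn A B)) →
      ∃ (z : List Bool) (Q : Finset (List Bool)), Q.card ≤ q ∧ z.length ≤ q ∧
        ∀ A' : Oracle, (∀ s ∈ Q, A' s = A s) →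
          r.out (jn A' B) x = some z ∧ Wit (V b) (p b) z (jn A' B))
    {τ : Set Oracle} (hτ : Loc {x | x.length ≤ n} τ) :
    eps j * (prob τ - 2 * prob (τ ∩ (Good B V p r n j)ᶜ) - 2 * (q / 2 ^ n) - eps j * prob τ) ≤
      prob (τ ∩ (Bad n j ∩ Err B V p n)) := by
  have h1 := key_sum B V p r hq htouch hτ
  have h2 := sum_Same_le (n := n) (j := j) (E := Err B V p n) hτ (measurableSet_Err V p B n)
  rw [Finset.sum_product] at h2
  have h3 : (Err B V p n ∩ τ) ∩ Bad n j = τ ∩ (Bad n j ∩ Err B V p n) := by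
    ext A
    simp only [Set.mem_inter_iff]
    tauto
  rw [h3] at h2
  set S := ∑ w₀ ∈ sn n, ∑ w₁ ∈ sn n,
    prob ((Err B V p n ∩ τ) ∩ Same (nb n j) (0, w₀) (1, w₁)) with hS
  have h4 : ∑ w₀ ∈ sn n, ∑ w₁ ∈ sn n, 2 ^ (nb n j) *
      prob ((Err B V p n ∩ τ) ∩ Same (nb n j) (0, w₀) (1, w₁)) = 2 ^ (nb n j) * S := by
    rw [hS, Finset.mul_sum]
    refine Finset.sum_congr rfl fun w₀ _ => ?_
    rw [Finset.mul_sum]
  rw [h4] at h1
  have h5 : (0 : ℝ) < (1 / 2) ^ (nb n j) := by positivity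
  have h6 := mul_le_mul_of_nonneg_left h1 h5.le
  have h7 : (1 / 2 : ℝ) ^ (nb n j) * (4 ^ n * prob τ) = eps j * prob τ := by
    rw [← four_mul_half n j]; ring
  have h8 : (1 / 2 : ℝ) ^ (nb n j) * (2 ^ (nb n j) * S +
      2 * 4 ^ n * prob (τ ∩ (Good B V p r n j)ᶜ) + 2 * 2 ^ n * q) =
      S + eps j * (2 * prob (τ ∩ (Good B V p r n j)ᶜ)) + eps j * (2 * (q / 2 ^ n)) := by
    have h9 : (1 / 2 : ℝ) ^ (nb n j) * 2 ^ (nb n j) = 1 := by
      rw [← mul_pow]; norm_num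
    have h10 : (4 : ℝ) ^ n * (q / 2 ^ n) = 2 ^ n * q := by
      have h11 : (4 : ℝ) ^ n = 2 ^ n * 2 ^ n := by rw [← mul_pow]; norm_num
      rw [h11]
      field_simp
    calc (1 / 2 : ℝ) ^ (nb n j) * (2 ^ (nb n j) * S +
          2 * 4 ^ n * prob (τ ∩ (Good B V p r n j)ᶜ) + 2 * 2 ^ n * q) =
        ((1 / 2 : ℝ) ^ (nb n j) * 2 ^ (nb n j)) * S +
          (4 ^ n * (1 / 2 : ℝ) ^ (nb n j)) * (2 * prob (τ ∩ (Good B V p r n j)ᶜ)) +
          2 * (1 / 2 : ℝ) ^ (nb n j) * (2 ^ n * q) := by ring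
      _ = S + eps j * (2 * prob (τ ∩ (Good B V p r n j)ᶜ)) +
          (4 ^ n * (1 / 2 : ℝ) ^ (nb n j)) * (2 * (q / 2 ^ n)) := by
          rw [h9, four_mul_half, ← h10, one_mul, ← four_mul_half n j]
          ring
      _ = _ := by rw [four_mul_half]
  rw [h7, h8] at h6
  nlinarith

end Pool.Agent.H96R.DP
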