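import Pool.Agent.H96R.DP.Prob

/-!
# The key inequality

If a reduction works for most oracles, then, given that some value occurs in both halves of a large
block, the candidate pair is probably not disjoint.
-/

set_option autoImplicit false

namespace Pool.Agent.H96R.DP

open MeasureTheory Pool.Agent.NPC Pool.Agent.H628R3.RO

/-- the value with the bits `I` -/
def vI (m : ℕ) (I : Finset ℕ) : List Bool := (List.range m).map fun i => decide (i ∈ I)

theorem vl_pl (m : ℕ) (κ : Cand) (I : Finset ℕ) (A : Oracle) : vl m κ (pl m κ I A) = vI m I := by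
  unfold vl vI
  apply List.map_congr_left
  intro i hi
  exact pl_pos (List.mem_range.1 hi)

theorem length_vI (m : ℕ) (I : Finset ℕ) : (vI m I).length = m := by simp [vI]

/-- A successful computation asks few questions. -/
theorem touch (V : Alg) (p : Polynomial ℕ) (r : Alg) : ∃ qq : Polynomial ℕ,
    ∀ (B A : Oracle) (x : List Bool),
      (∃ z, r.out (jn A B) x = some z ∧ Wit V p z (jn A B)) →
      ∃ (z : List Bool) (Q : Finset (List Bool)), Q.card ≤ qq.eval x.length ∧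
        z.length ≤ qq.eval x.length ∧
        ∀ A' : Oracle, (∀ s ∈ Q, A' s = A s) → r.out (jn A' B) x = some z ∧ Wit V p z (jn A' B) := by
  classical
  obtain ⟨br, hbr⟩ := r.out_length
  obtain ⟨q1, hq1⟩ := r.out_local
  obtain ⟨q2, hq2⟩ := V.out_local
  obtain ⟨P, hP⟩ : ∃ P : Polynomial ℕ, P = Polynomial.C 2 * br + Polynomial.C 1 + p.comp br :=
    ⟨_, rfl⟩
  refine ⟨br + r.p + V.p.comp P, fun B A x => ?_⟩
  rintro ⟨z, hz, y, hy, hV⟩
  obtain ⟨Q1, hc1, -, hl1⟩ := hq1 (jn A B) x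
  obtain ⟨Q2, hc2, -, hl2⟩ := hq2 (jn A B) (pairBits z y)
  have hzl := hbr _ _ _ hz
  have hPl : (pairBits z y).length ≤ P.eval x.length := by
    rw [length_pairBits, hP]
    have h3 := eval_mono p hzl
    simp only [Polynomial.eval_add, Polynomial.eval_mul, Polynomial.eval_C, Polynomial.eval_comp]
    omega
  refine ⟨z, (Q1 ∪ Q2).image List.tail, ?_, ?_, ?_⟩
  · refine (Finset.card_image_le.trans (Finset.card_union_le _ _)).trans ?_
    have h4 := eval_mono V.p hPl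
    simp only [Polynomial.eval_add, Polynomial.eval_comp]
    omega
  · simp only [Polynomial.eval_add, Polynomial.eval_comp]
    omega
  · intro A' hA'
    have hj : ∀ s ∈ Q1 ∪ Q2, jn A' B s = jn A B s := by
      intro s hs
      match s with
      | [] => rfl
      | true :: s' => exact hA' s' (Finset.mem_image.2 ⟨_, hs, rfl⟩)
      | false :: s' => rfl
    refine ⟨?_, y, hy, ?_⟩
    · rw [hl1 (jn A' B) fun s hs => hj s (Finset.mem_union_left _ hs)]
      exact hz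
    · rw [hl2 (jn A' B) fun s hs => hj s (Finset.mem_union_right _ hs)]
      exact hV

/-- the candidates touched by a set of questions -/
noncomputable def tch (m n : ℕ) (Q : Finset (List Bool)) : Finset Cand :=
  open Classical in (cn n).filter fun κ => ∃ s ∈ Q, s ∈ spots m κ

theorem card_tch (m n : ℕ) (Q : Finset (List Bool)) : (tch m n Q).card ≤ Q.card := by
  classical
  have h : ∀ κ ∈ tch m n Q, ∃ s ∈ Q, s ∈ spots m κ := fun κ hκ => (Finset.mem_filter.1 hκ).2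
  choose! g hg1 hg2 using h
  refine Finset.card_le_card_of_injOn g (fun κ hκ => hg1 κ hκ) ?_
  intro κ hκ κ' hκ' he
  have h1 := hg2 κ hκ
  have h2 := hg2 κ' hκ'
  rw [he] at h1
  exact M2.spots_disjoint h1 h2

theorem not_touched {m n : ℕ} {Q : Finset (List Bool)} {κ : Cand} (hκ : κ ∈ cn n)
    (h : κ ∉ tch m n Q) : ∀ s ∈ Q, s ∉ spots m κ := by
  classical
  intro s hs hs'
  exact h (Finset.mem_filter.2 ⟨hκ, s, hs, hs'⟩)

theorem mask_pl_eq {K : Set (List Bool)} {m : ℕ} {κ : Cand} {I : Finset ℕ} {A : Oracle}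
    {s : List Bool} (hs : s ∉ spots m κ) : M2.mask K (pl m κ I A) s = M2.mask K A s := by
  unfold M2.mask
  split_ifs with h
  · exact pl_off hs
  · rfl

/-- the inclusion of events behind the key inequality -/
theorem exists_touch (B : Oracle) (V : Bool → Alg) (p : Bool → Polynomial ℕ) (r : Alg)
    {n j N q : ℕ} (hG : Loc {x | x.length ≤ N} (Good B V p r n j))
    (hE : Loc {x | x.length ≤ N} (Err B V p n)) (hN : n + nb n j + 4 ≤ N)
    (hq : q ≤ 2 ^ n)
    (htouch : ∀ (b : Bool) (A : Oracle) (x : List Bool), x.length = n + 1 + nb n j →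
      (∃ z, r.out (jn A B) x = some z ∧ Wit (V b) (p b) z (jn A B)) →
      ∃ (z : List Bool) (Q : Finset (List Bool)), Q.card ≤ q ∧ z.length ≤ q ∧
        ∀ A' : Oracle, (∀ s ∈ Q, A' s = A s) →
          r.out (jn A' B) x = some z ∧ Wit (V b) (p b) z (jn A' B)) :
    ∃ T : Bool → Oracle → Finset ℕ → Finset Cand, (∀ b A I, (T b A I).card ≤ q) ∧
      (∀ b I, ∀ A A' : Oracle, (∀ x : List Bool, x.length ≤ N → A x = A' x) → T b A I = T b A' I) ∧
      ∀ (A : Oracle) (I : Finset ℕ), ∀ w₀ ∈ sn n, ∀ w₁ ∈ sn n,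
        pl (nb n j) (0, w₀) I A ∈ Good B V p r n j → pl (nb n j) (1, w₁) I A ∈ Good B V p r n j →
        ((1, w₁) : Cand) ∉ T false (pl (nb n j) (0, w₀) I A) I →
        ((0, w₀) : Cand) ∉ T true (pl (nb n j) (1, w₁) I A) I →
        pl (nb n j) (1, w₁) I (pl (nb n j) (0, w₀) I A) ∈ Err B V p n := by
  classical
  set m := nb n j with hm
  set K : Set (List Bool) := {x | x.length ≤ N} with hK
  have hch : ∀ (b : Bool) (A : Oracle) (I : Finset ℕ), ∃ T : Finset Cand, T.card ≤ q ∧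
      ((∃ z, r.out (jn A B) (inst n (vI m I)) = some z ∧ Wit (V b) (p b) z (jn A B)) →
      ∃ z : List Bool, z.length ≤ q ∧ ∀ κ ∈ cn n, κ ∉ T → ∀ A' : Oracle,
        (∀ s, s ∉ spots m κ → A' s = A s) →
          r.out (jn A' B) (inst n (vI m I)) = some z ∧ Wit (V b) (p b) z (jn A' B)) := by
    intro b A I
    by_cases h : ∃ z, r.out (jn A B) (inst n (vI m I)) = some z ∧ Wit (V b) (p b) z (jn A B)
    · obtain ⟨z, Q, h1, h2, h3⟩ := htouch b A (inst n (vI m I)) (by rw [length_inst, length_vI]) h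
      refine ⟨tch m n Q, (card_tch m n Q).trans h1, fun _ => ⟨z, h2, fun κ hκ hκT A' hA' => ?_⟩⟩
      exact h3 A' fun s hs => hA' s (not_touched hκ hκT s hs)
    · exact ⟨∅, by simp, fun h' => absurd h' h⟩
  choose T0 hT1 hT2 using hch
  refine ⟨fun b A I => T0 b (M2.mask K A) I, fun b A I => hT1 b _ I, ?_, ?_⟩
  · intro b I A A' h
    have : M2.mask K A = M2.mask K A' := M2.mask_congr h
    show T0 b (M2.mask K A) I = T0 b (M2.mask K A') I
    rw [this]
  · intro A I w₀ hw₀ w₁ hw₁ h0 h1 h2 h3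
    have hmask : ∀ A : Oracle, ∀ x ∈ K, M2.mask K A x = A x := fun A x hx => M2.mask_eq hx
    have hne : ((0, w₀) : Cand) ≠ (1, w₁) := by
      intro h
      have := congrArg Prod.fst h
      norm_num at this
    have hvl : ∀ (κ : Cand) (A : Oracle), κ ∈ cn n → vl m κ (M2.mask K A) = vl m κ A := by
      intro κ A hκ
      rw [vl_eq_iff]
      intro i hi
      apply hmask
      show (pos κ.1 i κ.2).length ≤ N
      rw [length_pos, (mem_cn.1 hκ).2]
      have := (mem_cn.1 hκ).1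
      omega
    -- the first computation
    set A₀ := pl m (0, w₀) I A with hA₀
    set A₁ := pl m (1, w₁) I A with hA₁
    set A₀₁ := pl m (1, w₁) I A₀ with hA₀₁
    have hA₀₁' : A₀₁ = pl m (0, w₀) I A₁ := by
      rw [hA₀₁, hA₀, hA₁]
      exact (pl_comm hne I I A).symm
    have g0 : M2.mask K A₀ ∈ Good B V p r n j := (hG _ _ (hmask A₀)).2 h0
    have g1 : M2.mask K A₁ ∈ Good B V p r n j := (hG _ _ (hmask A₁)).2 h1
    have e0 : ∃ z, r.out (jn (M2.mask K A₀) B) (inst n (vI m I)) = some z ∧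
        Wit (V false) (p false) z (jn (M2.mask K A₀) B) := by
      have := g0 false w₀ hw₀
      rw [← hm] at this
      have e := hvl (0, w₀) A₀ (mem_cn_zero hw₀)
      rw [show ((false.toNat, w₀) : Cand) = (0, w₀) from rfl, e, hA₀, vl_pl] at this
      exact this
    have e1 : ∃ z, r.out (jn (M2.mask K A₁) B) (inst n (vI m I)) = some z ∧
        Wit (V true) (p true) z (jn (M2.mask K A₁) B) := by
      have := g1 true w₁ hw₁
      rw [← hm] at this
      have e := hvl (1, w₁) A₁ (mem_cn_one hw₁)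
      rw [show ((true.toNat, w₁) : Cand) = (1, w₁) from rfl, e, hA₁, vl_pl] at this
      exact this
    obtain ⟨z₀, hz₀, f0⟩ := hT2 false (M2.mask K A₀) I e0
    obtain ⟨z₁, hz₁, f1⟩ := hT2 true (M2.mask K A₁) I e1
    obtain ⟨a0, b0⟩ := f0 (1, w₁) (mem_cn_one hw₁) h2 (M2.mask K A₀₁) (fun s hs => mask_pl_eq hs)
    obtain ⟨a1, b1⟩ := f1 (0, w₀) (mem_cn_zero hw₀) h3 (M2.mask K A₀₁)
      (fun s hs => by rw [hA₀₁']; exact mask_pl_eq hs)
    have hzz : z₀ = z₁ := by
      rw [a0] at a1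
      exact Option.some.inj a1
    subst hzz
    apply (hE _ _ (hmask A₀₁)).1
    refine ⟨z₀, hz₀.trans hq, fun b => ?_⟩
    cases b
    · exact b0
    · exact b1

/-- the spots of a block are longer than `n` -/
theorem pl_mem_of_loc {n : ℕ} {τ : Set Oracle} (hτ : Loc {x | x.length ≤ n} τ) {m : ℕ} {κ : Cand}
    (hκ : κ ∈ cn n) (I : Finset ℕ) (A : Oracle) : pl m κ I A ∈ τ ↔ A ∈ τ := by
  apply hτ
  intro x hx
  apply pl_off
  intro hs
  obtain ⟨i, hi, rfl⟩ := M2.mem_spots.1 hs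
  have hx' : (pos κ.1 i κ.2).length ≤ n := hx
  rw [length_pos, (mem_cn.1 hκ).2] at hx'
  omega

theorem sum_touch {n N q : ℕ} (c : ℕ) (T : Oracle → Finset Cand) (hT : ∀ A, (T A).card ≤ q)
    (hl : ∀ A A' : Oracle, (∀ x : List Bool, x.length ≤ N → A x = A' x) → T A = T A') :
    ∑ w ∈ sn n, prob {A | ((c, w) : Cand) ∈ T A} ≤ q := by
  classical
  have hinj : Set.InjOn (fun w : List Bool => ((c, w) : Cand)) (sn n : Set (List Bool)) := by
    intro a _ b _ h
    exact congrArg Prod.snd h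
  have h1 : ∑ w ∈ sn n, prob {A | ((c, w) : Cand) ∈ T A} =
      ∑ κ ∈ (sn n).image (fun w : List Bool => ((c, w) : Cand)),
        prob (Set.univ ∩ {A | κ ∈ T A}) := by
    rw [Finset.sum_image hinj]
    simp only [Set.univ_inter]
  rw [h1]
  have hm : ∀ κ : Cand, MeasurableSet {A | κ ∈ T A} := by
    intro κ
    refine measurableSet_of_loc (finite_le N) ?_
    intro A A' h
    simp only [Set.mem_ofPred_eq]
    rw [hl A A' h]
  have h2 := M2.sum_prob_le MeasurableSet.univ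
    ((sn n).image (fun w : List Bool => ((c, w) : Cand))) (fun κ => {A | κ ∈ T A}) hm q
    (fun A _ => ⟨T A, hT A, fun κ _ h => h⟩)
  rw [prob_univ', mul_one] at h2
  exact h2

/-- **The key inequality**, in the form of a sum over all pairs of candidates. -/
theorem key_sum (B : Oracle) (V : Bool → Alg) (p : Bool → Polynomial ℕ) (r : Alg)
    {n j q : ℕ} (hq : q ≤ 2 ^ n)
    (htouch : ∀ (b : Bool) (A : Oracle) (x : List Bool), x.length = n + 1 + nb n j →
      (∃ z, r.out (jn A B) x = some z ∧ Wit (V b) (p b) z (jn A B)) →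
      ∃ (z : List Bool) (Q : Finset (List Bool)), Q.card ≤ q ∧ z.length ≤ q ∧
        ∀ A' : Oracle, (∀ s ∈ Q, A' s = A s) →
          r.out (jn A' B) x = some z ∧ Wit (V b) (p b) z (jn A' B))
    {τ : Set Oracle} (hτ : Loc {x | x.length ≤ n} τ) :
    4 ^ n * prob τ ≤ (∑ w₀ ∈ sn n, ∑ w₁ ∈ sn n, 2 ^ (nb n j) *
      prob ((Err B V p n ∩ τ) ∩ Same (nb n j) (0, w₀) (1, w₁))) +
      2 * 4 ^ n * prob (τ ∩ (Good B V p r n j)ᶜ) + 2 * 2 ^ n * q := by
  classical
  obtain ⟨N₁, hG⟩ := loc_Good V p r B n j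
  obtain ⟨b, hb⟩ := loc_Err V p
  obtain ⟨N, hN⟩ : ∃ N, N = N₁ + b.eval (2 ^ n) + (n + nb n j + 4) := ⟨_, rfl⟩
  have hG' : Loc {x | x.length ≤ N} (Good B V p r n j) := by
    intro A A' h
    apply hG
    intro x hx
    apply h
    simp only [Set.mem_ofPred_eq] at hx ⊢
    omega
  have hE' : Loc {x | x.length ≤ N} (Err B V p n) := by
    intro A A' h
    apply hb
    intro x hx
    apply h
    simp only [Set.mem_ofPred_eq] at hx ⊢
    omega
  obtain ⟨T, hT1, hT2, hT3⟩ := exists_touch B V p r hG' hE' (by omega) hq htouch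
  set m := nb n j with hm
  set G := Good B V p r n j with hGdef
  set E := Err B V p n with hEdef
  have hGm : MeasurableSet G := measurableSet_Good V p r B n j
  have hEm : MeasurableSet E := measurableSet_Err V p B n
  have hτm : MeasurableSet τ := measurableSet_of_loc (finite_le _) hτ
  have hτG : MeasurableSet (τ ∩ Gᶜ) := hτm.inter hGm.compl
  have hplN : ∀ (κ : Cand) (I : Finset ℕ) (A A' : Oracle),
      (∀ x : List Bool, x.length ≤ N → A x = A' x) →
      ∀ x : List Bool, x.length ≤ N → pl m κ I A x = pl m κ I A' x := by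
    intro κ I A A' h x hx
    unfold pl
    split_ifs
    · rfl
    · exact h x hx
  -- the inequality for one choice
  have hone : ∀ w₀ ∈ sn n, ∀ w₁ ∈ sn n, ∀ I : Finset ℕ, prob τ ≤
      prob {A | pl m (1, w₁) I (pl m (0, w₀) I A) ∈ E ∩ τ} +
      prob (pl m (0, w₀) I ⁻¹' (τ ∩ Gᶜ)) + prob (pl m (1, w₁) I ⁻¹' (τ ∩ Gᶜ)) +
      prob {A | ((1, w₁) : Cand) ∈ T false (pl m (0, w₀) I A) I} +
      prob {A | ((0, w₀) : Cand) ∈ T true (pl m (1, w₁) I A) I} := by
    intro w₀ hw₀ w₁ hw₁ I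
    have hsub : τ ⊆ ((({A | pl m (1, w₁) I (pl m (0, w₀) I A) ∈ E ∩ τ} ∪
      (pl m (0, w₀) I ⁻¹' (τ ∩ Gᶜ))) ∪ (pl m (1, w₁) I ⁻¹' (τ ∩ Gᶜ))) ∪
      {A | ((1, w₁) : Cand) ∈ T false (pl m (0, w₀) I A) I}) ∪
      {A | ((0, w₀) : Cand) ∈ T true (pl m (1, w₁) I A) I} := by
      intro A hA
      by_cases c1 : pl m (0, w₀) I A ∈ G
      · by_cases c2 : pl m (1, w₁) I A ∈ G
        · by_cases c3 : ((1, w₁) : Cand) ∈ T false (pl m (0, w₀) I A) I
          · exact Or.inl (Or.inr c3)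
          · by_cases c4 : ((0, w₀) : Cand) ∈ T true (pl m (1, w₁) I A) I
            · exact Or.inr c4
            · refine Or.inl (Or.inl (Or.inl (Or.inl ⟨?_, ?_⟩)))
              · exact hT3 A I w₀ hw₀ w₁ hw₁ c1 c2 c3 c4
              · rw [pl_mem_of_loc hτ (mem_cn_one hw₁), pl_mem_of_loc hτ (mem_cn_zero hw₀)]
                exact hA
        · refine Or.inl (Or.inl (Or.inr ⟨?_, c2⟩))
          rw [pl_mem_of_loc hτ (mem_cn_one hw₁)]
          exact hA
      · refine Or.inl (Or.inl (Or.inl (Or.inr ⟨?_, c1⟩)))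
        rw [pl_mem_of_loc hτ (mem_cn_zero hw₀)]
        exact hA
    refine (prob_mono hsub).trans ?_
    refine (prob_union_le _ _).trans (add_le_add ?_ le_rfl)
    refine (prob_union_le _ _).trans (add_le_add ?_ le_rfl)
    refine (prob_union_le _ _).trans (add_le_add ?_ le_rfl)
    exact prob_union_le _ _
  have hpm : (0 : ℝ) ≤ (1 / 2) ^ m := by positivity
  set P := (Finset.range m).powerset with hP
  -- sum over I
  have htwo : ∀ w₀ ∈ sn n, ∀ w₁ ∈ sn n, prob τ ≤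
      2 ^ m * prob ((E ∩ τ) ∩ Same m (0, w₀) (1, w₁)) + 2 * prob (τ ∩ Gᶜ) +
      (∑ I ∈ P, (1 / 2) ^ m * prob {A | ((1, w₁) : Cand) ∈ T false (pl m (0, w₀) I A) I}) +
      (∑ I ∈ P, (1 / 2) ^ m * prob {A | ((0, w₀) : Cand) ∈ T true (pl m (1, w₁) I A) I}) := by
    intro w₀ hw₀ w₁ hw₁
    have hne : ((0, w₀) : Cand) ≠ (1, w₁) := by
      intro h
      have := congrArg Prod.fst h
      norm_num at this
    have h1 : prob τ = ∑ I ∈ P, (1 / 2) ^ m * prob τ := by
      rw [← Finset.sum_mul, half_pow_card, one_mul]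
    rw [prob_inter_Same (hEm.inter hτm) m hne]
    rw [two_mul]
    nth_rewrite 2 [prob_pl hτG m (0, w₀)]
    rw [prob_pl hτG m (1, w₁), h1]
    rw [← Finset.sum_add_distrib, ← Finset.sum_add_distrib, ← Finset.sum_add_distrib,
      ← Finset.sum_add_distrib]
    refine Finset.sum_le_sum fun I _ => ?_
    have := mul_le_mul_of_nonneg_left (hone w₀ hw₀ w₁ hw₁ I) hpm
    linarith
  -- sum over w₀ and w₁
  have hthree : ∑ w₀ ∈ sn n, ∑ w₁ ∈ sn n, prob τ ≤
      (∑ w₀ ∈ sn n, ∑ w₁ ∈ sn n, 2 ^ m * prob ((E ∩ τ) ∩ Same m (0, w₀) (1, w₁))) +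
      (∑ w₀ ∈ sn n, ∑ w₁ ∈ sn n, 2 * prob (τ ∩ Gᶜ)) +
      (∑ w₀ ∈ sn n, ∑ w₁ ∈ sn n,
        ∑ I ∈ P, (1 / 2) ^ m * prob {A | ((1, w₁) : Cand) ∈ T false (pl m (0, w₀) I A) I}) +
      (∑ w₀ ∈ sn n, ∑ w₁ ∈ sn n,
        ∑ I ∈ P, (1 / 2) ^ m * prob {A | ((0, w₀) : Cand) ∈ T true (pl m (1, w₁) I A) I}) := by
    rw [← Finset.sum_add_distrib, ← Finset.sum_add_distrib, ← Finset.sum_add_distrib]
    refine Finset.sum_le_sum fun w₀ hw₀ => ?_
    rw [← Finset.sum_add_distrib, ← Finset.sum_add_distrib, ← Finset.sum_add_distrib]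
    exact Finset.sum_le_sum fun w₁ hw₁ => htwo w₀ hw₀ w₁ hw₁
  have hA1 : ∑ w₀ ∈ sn n, ∑ w₁ ∈ sn n,
      ∑ I ∈ P, (1 / 2) ^ m * prob {A | ((1, w₁) : Cand) ∈ T false (pl m (0, w₀) I A) I} ≤
      2 ^ n * q := by
    have h1 : ∀ w₀ ∈ sn n, ∑ w₁ ∈ sn n, ∑ I ∈ P, (1 / 2) ^ m *
        prob {A | ((1, w₁) : Cand) ∈ T false (pl m (0, w₀) I A) I} ≤ q := by
      intro w₀ hw₀
      rw [Finset.sum_comm]
      calc ∑ I ∈ P, ∑ w₁ ∈ sn n, (1 / 2 : ℝ) ^ m *
            prob {A | ((1, w₁) : Cand) ∈ T false (pl m (0, w₀) I A) I} ≤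
          ∑ I ∈ P, (1 / 2 : ℝ) ^ m * q := by
            refine Finset.sum_le_sum fun I _ => ?_
            rw [← Finset.mul_sum]
            refine mul_le_mul_of_nonneg_left ?_ hpm
            exact sum_touch (N := N) 1 (fun A => T false (pl m (0, w₀) I A) I)
              (fun A => hT1 _ _ _) (fun A A' h => hT2 false I _ _ (hplN _ _ A A' h))
        _ = q := by rw [← Finset.sum_mul, half_pow_card, one_mul]
    refine (Finset.sum_le_sum h1).trans (le_of_eq ?_)
    rw [Finset.sum_const, card_sn, nsmul_eq_mul]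
    push_cast
    ring
  have hA2 : ∑ w₀ ∈ sn n, ∑ w₁ ∈ sn n,
      ∑ I ∈ P, (1 / 2) ^ m * prob {A | ((0, w₀) : Cand) ∈ T true (pl m (1, w₁) I A) I} ≤
      2 ^ n * q := by
    rw [Finset.sum_comm]
    have h1 : ∀ w₁ ∈ sn n, ∑ w₀ ∈ sn n, ∑ I ∈ P, (1 / 2) ^ m *
        prob {A | ((0, w₀) : Cand) ∈ T true (pl m (1, w₁) I A) I} ≤ q := by
      intro w₁ hw₁
      rw [Finset.sum_comm]
      calc ∑ I ∈ P, ∑ w₀ ∈ sn n, (1 / 2 : ℝ) ^ m *
            prob {A | ((0, w₀) : Cand) ∈ T true (pl m (1, w₁) I A) I} ≤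
          ∑ I ∈ P, (1 / 2 : ℝ) ^ m * q := by
            refine Finset.sum_le_sum fun I _ => ?_
            rw [← Finset.mul_sum]
            refine mul_le_mul_of_nonneg_left ?_ hpm
            exact sum_touch (N := N) 0 (fun A => T true (pl m (1, w₁) I A) I)
              (fun A => hT1 _ _ _) (fun A A' h => hT2 true I _ _ (hplN _ _ A A' h))
        _ = q := by rw [← Finset.sum_mul, half_pow_card, one_mul]
    refine (Finset.sum_le_sum h1).trans (le_of_eq ?_)
    rw [Finset.sum_const, card_sn, nsmul_eq_mul]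
    push_cast
    ring
  have h4 : (4 : ℝ) ^ n = 2 ^ n * 2 ^ n := by rw [← mul_pow]; norm_num
  simp only [Finset.sum_const, card_sn, nsmul_eq_mul] at hthree
  push_cast at hthree
  rw [h4]
  calc 2 ^ n * 2 ^ n * prob τ = 2 ^ n * (2 ^ n * prob τ) := by ring
    _ ≤ _ := hthree
    _ ≤ (∑ w₀ ∈ sn n, ∑ w₁ ∈ sn n, 2 ^ m * prob ((E ∩ τ) ∩ Same m (0, w₀) (1, w₁))) +
        2 ^ n * (2 ^ n * (2 * prob (τ ∩ Gᶜ))) + 2 ^ n * q + 2 ^ n * q := by
          refine add_le_add (add_le_add (le_of_eq ?_) hA1) hA2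
          rfl
    _ = _ := by ring

end Pool.Agent.H96R.DP
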