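import Pool.Agent.H96R.DP.Base

/-!
# Planting values; the probability of equal values
-/

set_option autoImplicit false

namespace Pool.Agent.H96R.DP

open MeasureTheory Pool.Agent.NPC Pool.Agent.H628R3.RO

theorem prob_split (x : List Bool) {S : Set Oracle} (hS : MeasurableSet S) :
    prob S = 1 / 2 * prob {A | Function.update A x true ∈ S} +
      1 / 2 * prob {A | Function.update A x false ∈ S} := by
  have h1 : randomOracle S = 2⁻¹ * randomOracle {A | Function.update A x true ∈ S} +
      2⁻¹ * randomOracle {A | Function.update A x false ∈ S} := by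
    conv_lhs => rw [← randomOracle_eq_upd x]
    rw [Measure.add_apply, Measure.smul_apply, Measure.smul_apply,
      Measure.map_apply (measurable_upd x true) hS,
      Measure.map_apply (measurable_upd x false) hS]
    rfl
  simp only [prob, measureReal_def, h1]
  rw [ENNReal.toReal_add (by finiteness) (by finiteness), ENNReal.toReal_mul, ENNReal.toReal_mul]
  norm_num

/-- The value of the candidate `κ` is overwritten: bit `i` becomes the truth value of `i ∈ I`. -/
def pl (m : ℕ) (κ : Cand) (I : Finset ℕ) (A : Oracle) : Oracle := fun x =>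
  if x ∈ spots m κ then decide (∃ i ∈ I, pos κ.1 i κ.2 = x) else A x

theorem pl_pos {m : ℕ} {κ : Cand} {I : Finset ℕ} {A : Oracle} {i : ℕ} (hi : i < m) :
    pl m κ I A (pos κ.1 i κ.2) = decide (i ∈ I) := by
  unfold pl
  rw [if_pos (M2.mem_spots.2 ⟨i, hi, rfl⟩)]
  apply decide_eq_decide.2
  constructor
  · rintro ⟨i', h1, h2⟩
    rw [← (Pool.Agent.H628R3.RO.pos_inj h2).2.1]
    exact h1
  · intro h
    exact ⟨i, h, rfl⟩

theorem pl_off {m : ℕ} {κ : Cand} {I : Finset ℕ} {A : Oracle} {x : List Bool}
    (hx : x ∉ spots m κ) : pl m κ I A x = A x := by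
  unfold pl
  rw [if_neg hx]

theorem pl_comm {m : ℕ} {κ κ' : Cand} (h : κ ≠ κ') (I I' : Finset ℕ) (A : Oracle) :
    pl m κ I (pl m κ' I' A) = pl m κ' I' (pl m κ I A) := by
  funext x
  by_cases h1 : x ∈ spots m κ
  · have h2 : x ∉ spots m κ' := fun h2 => h (M2.spots_disjoint h1 h2)
    rw [pl_off (κ := κ') h2]
    unfold pl
    rw [if_pos h1, if_pos h1]
  · rw [pl_off (κ := κ) h1]
    by_cases h2 : x ∈ spots m κ'
    · unfold pl
      rw [if_pos h2, if_pos h2]
    · rw [pl_off h2, pl_off h2, pl_off h1]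

theorem measurable_pl (m : ℕ) (κ : Cand) (I : Finset ℕ) : Measurable (pl m κ I) := by
  refine measurable_pi_lambda _ fun y => ?_
  unfold pl
  by_cases hy : y ∈ spots m κ
  · simp only [if_pos hy]
    exact measurable_const
  · simp only [if_neg hy]
    exact measurable_pi_apply _

/-- resampling a value -/
theorem prob_pl {S : Set Oracle} (hS : MeasurableSet S) (m : ℕ) (κ : Cand) :
    prob S = ∑ I ∈ (Finset.range m).powerset, (1 / 2) ^ m * prob (pl m κ I ⁻¹' S) := by
  classical
  induction m generalizing S with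
  | zero =>
    have h : pl 0 κ ∅ ⁻¹' S = S := by
      ext A
      have : pl 0 κ ∅ A = A := by
        funext y
        apply pl_off
        intro h
        obtain ⟨i, hi, -⟩ := M2.mem_spots.1 h
        omega
      simp [this]
    simp [h]
  | succ m ih =>
    rw [ih hS, Finset.range_add_one, Finset.sum_powerset_insert Finset.notMem_range_self,
      ← Finset.sum_add_distrib]
    refine Finset.sum_congr rfl fun I hI => ?_
    rw [Finset.mem_powerset] at hI
    have hmI : m ∉ I := fun h => by
      have := Finset.mem_range.1 (hI h)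
      omega
    have hm := measurable_pl m κ I hS
    rw [prob_split (pos κ.1 m κ.2) hm]
    have hnot : pos κ.1 m κ.2 ∉ spots m κ := by
      intro h
      obtain ⟨i, hi, h2⟩ := M2.mem_spots.1 h
      have := (Pool.Agent.H628R3.RO.pos_inj h2).2.1
      omega
    have hiff : ∀ y : List Bool, y ≠ pos κ.1 m κ.2 → (y ∈ spots (m + 1) κ ↔ y ∈ spots m κ) := by
      intro y hy
      rw [M2.mem_spots, M2.mem_spots]
      constructor
      · rintro ⟨i, hi, rfl⟩
        refine ⟨i, ?_, rfl⟩
        rcases Nat.lt_succ_iff_lt_or_eq.1 hi with h | h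
        · exact h
        · exact absurd (by rw [h]) hy
      · rintro ⟨i, hi, rfl⟩
        exact ⟨i, by omega, rfl⟩
    have key : ∀ (A : Oracle) (b : Bool), pl m κ I (Function.update A (pos κ.1 m κ.2) b) =
        pl (m + 1) κ (if b = true then insert m I else I) A := by
      intro A b
      funext y
      by_cases hy : y = pos κ.1 m κ.2
      · subst hy
        rw [pl_off hnot, Function.update_self, pl_pos (Nat.lt_succ_self m)]
        cases b
        · simp [hmI]
        · simp
      · by_cases h1 : y ∈ spots m κ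
        · obtain ⟨i, hi, rfl⟩ := M2.mem_spots.1 h1
          rw [pl_pos hi, pl_pos (by omega)]
          apply decide_eq_decide.2
          have hne : i ≠ m := by omega
          cases b
          · simp
          · simp [hne]
        · rw [pl_off h1, pl_off (fun h => h1 ((hiff y hy).1 h)), Function.update_of_ne hy]
    have e1 : {A | Function.update A (pos κ.1 m κ.2) true ∈ pl m κ I ⁻¹' S} =
        pl (m + 1) κ (insert m I) ⁻¹' S := by
      ext A
      simp only [Set.mem_ofPred_eq, Set.mem_preimage]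
      rw [key A true, if_pos rfl]
    have e2 : {A | Function.update A (pos κ.1 m κ.2) false ∈ pl m κ I ⁻¹' S} =
        pl (m + 1) κ I ⁻¹' S := by
      ext A
      simp only [Set.mem_ofPred_eq, Set.mem_preimage]
      rw [key A false, if_neg (by simp)]
    rw [e1, e2, pow_succ]
    ring

theorem half_pow_card (m : ℕ) : ∑ _I ∈ (Finset.range m).powerset, (1 / 2 : ℝ) ^ m = 1 := by
  rw [Finset.sum_const, Finset.card_powerset, Finset.card_range, nsmul_eq_mul]
  push_cast
  rw [← mul_pow]
  norm_num

theorem mem_Same_pl {m : ℕ} {κ κ' : Cand} (h : κ ≠ κ') {I I' : Finset ℕ}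
    (hI : I ⊆ Finset.range m) (hI' : I' ⊆ Finset.range m) (A : Oracle) :
    pl m κ' I' (pl m κ I A) ∈ Same m κ κ' ↔ I = I' := by
  unfold Same
  simp only [Set.mem_ofPred_eq]
  have h1 : ∀ i < m, pl m κ' I' (pl m κ I A) (pos κ.1 i κ.2) = decide (i ∈ I) := by
    intro i hi
    rw [← pl_comm h]
    exact pl_pos hi
  have h2 : ∀ i < m, pl m κ' I' (pl m κ I A) (pos κ'.1 i κ'.2) = decide (i ∈ I') := by
    intro i hi
    exact pl_pos hi
  constructor
  · intro h3
    ext i
    by_cases hi : i < m
    · have h4 := h3 i hi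
      rw [h1 i hi, h2 i hi] at h4
      exact decide_eq_decide.1 h4
    · constructor
      · intro h5
        exact absurd (Finset.mem_range.1 (hI h5)) hi
      · intro h5
        exact absurd (Finset.mem_range.1 (hI' h5)) hi
  · rintro rfl i hi
    rw [h1 i hi, h2 i hi]

/-- the probability of `S` and equal values, by planting a common value -/
theorem prob_inter_Same {S : Set Oracle} (hS : MeasurableSet S) (m : ℕ) {κ κ' : Cand}
    (h : κ ≠ κ') : 2 ^ m * prob (S ∩ Same m κ κ') =
      ∑ I ∈ (Finset.range m).powerset, (1 / 2) ^ m * prob {A | pl m κ' I (pl m κ I A) ∈ S} := by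
  classical
  have hm : MeasurableSet (S ∩ Same m κ κ') := hS.inter (measurableSet_Same m κ κ')
  have h1 : prob (S ∩ Same m κ κ') = ∑ I ∈ (Finset.range m).powerset,
      ∑ I' ∈ (Finset.range m).powerset, (1 / 2) ^ m * ((1 / 2) ^ m *
        prob (pl m κ I ⁻¹' (pl m κ' I' ⁻¹' (S ∩ Same m κ κ')))) := by
    rw [prob_pl hm m κ']
    have : ∀ I' ∈ (Finset.range m).powerset, (1 / 2 : ℝ) ^ m * prob (pl m κ' I' ⁻¹' (S ∩ Same m κ κ')) =
        ∑ I ∈ (Finset.range m).powerset, (1 / 2) ^ m * ((1 / 2) ^ m *
        prob (pl m κ I ⁻¹' (pl m κ' I' ⁻¹' (S ∩ Same m κ κ')))) := by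
      intro I' _
      rw [prob_pl (measurable_pl m κ' I' hm) m κ, Finset.mul_sum]
    rw [Finset.sum_congr rfl this, Finset.sum_comm]
  have h2 : ∀ I ∈ (Finset.range m).powerset, ∑ I' ∈ (Finset.range m).powerset,
      (1 / 2 : ℝ) ^ m * ((1 / 2) ^ m *
        prob (pl m κ I ⁻¹' (pl m κ' I' ⁻¹' (S ∩ Same m κ κ')))) =
      (1 / 2) ^ m * ((1 / 2) ^ m * prob {A | pl m κ' I (pl m κ I A) ∈ S}) := by
    intro I hI
    rw [Finset.sum_eq_single_of_mem I hI]
    · congr 3
      ext A
      simp only [Set.mem_preimage, Set.mem_inter_iff, Set.mem_ofPred_eq]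
      rw [mem_Same_pl h (Finset.mem_powerset.1 hI) (Finset.mem_powerset.1 hI)]
      simp
    · intro I' hI' hne
      have h3 : pl m κ I ⁻¹' (pl m κ' I' ⁻¹' (S ∩ Same m κ κ')) = ∅ := by
        rw [Set.eq_empty_iff_forall_notMem]
        intro A hA
        simp only [Set.mem_preimage, Set.mem_inter_iff] at hA
        exact hne ((mem_Same_pl h (Finset.mem_powerset.1 hI) (Finset.mem_powerset.1 hI') A).1
          hA.2).symm
      rw [h3]
      simp [prob]
  rw [h1, Finset.sum_congr rfl h2, Finset.mul_sum]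
  refine Finset.sum_congr rfl fun I _ => ?_
  rw [← mul_assoc, ← mul_pow]
  norm_num

/-- If `S` does not depend on the value of `κ'`, then it is independent of the equality of the two
values. -/
theorem prob_Same_indep {S : Set Oracle} (hS : MeasurableSet S) (m : ℕ) {κ κ' : Cand}
    (h : κ ≠ κ') (hκ' : ∀ (A : Oracle) (I : Finset ℕ), pl m κ' I A ∈ S ↔ A ∈ S) :
    prob (S ∩ Same m κ κ') = (1 / 2) ^ m * prob S := by
  have h1 := prob_inter_Same hS m h
  have h2 : ∀ I ∈ (Finset.range m).powerset, (1 / 2 : ℝ) ^ m *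
      prob {A | pl m κ' I (pl m κ I A) ∈ S} = (1 / 2) ^ m * prob (pl m κ I ⁻¹' S) := by
    intro I _
    congr 2
    ext A
    exact hκ' _ _
  rw [Finset.sum_congr rfl h2, ← prob_pl hS m κ] at h1
  have h3 : (1 / 2 : ℝ) ^ m * (2 ^ m * prob (S ∩ Same m κ κ')) = prob (S ∩ Same m κ κ') := by
    rw [← mul_assoc, ← mul_pow]
    norm_num
  rw [← h3, h1]

theorem Same_comm (m : ℕ) (κ κ' : Cand) : Same m κ κ' = Same m κ' κ := by
  ext A
  rw [mem_Same, mem_Same]
  exact eq_comm

theorem prob_nonneg (S : Set Oracle) : 0 ≤ prob S := measureReal_nonneg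

theorem prob_mono {S S' : Set Oracle} (h : S ⊆ S') : prob S ≤ prob S' := measureReal_mono h

theorem prob_union_le (S S' : Set Oracle) : prob (S ∪ S') ≤ prob S + prob S' :=
  measureReal_union_le S S'

theorem prob_le_one (S : Set Oracle) : prob S ≤ 1 := by
  unfold prob
  exact measureReal_le_one

theorem prob_biUnion_le {ι : Type} (s : Finset ι) (f : ι → Set Oracle) :
    prob (⋃ i ∈ s, f i) ≤ ∑ i ∈ s, prob (f i) := measureReal_biUnion_finset_le s f

/-- Bonferroni's inequality, with a uniform bound for the intersections -/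
theorem sum_le_union {ι : Type} [DecidableEq ι] (s : Finset ι) (f : ι → Set Oracle) {c : ℝ}
    (hf : ∀ i ∈ s, MeasurableSet (f i))
    (hc : ∀ i ∈ s, ∀ i' ∈ s, i ≠ i' → prob (f i ∩ f i') ≤ c) (hc0 : 0 ≤ c) :
    ∑ i ∈ s, prob (f i) ≤ prob (⋃ i ∈ s, f i) + (s.card : ℝ) ^ 2 * c := by
  induction s using Finset.induction_on with
  | empty => simp [prob_nonneg]
  | insert a s ha ih =>
    have ih' := ih (fun i hi => hf i (Finset.mem_insert_of_mem hi))
      (fun i hi i' hi' h => hc i (Finset.mem_insert_of_mem hi) i' (Finset.mem_insert_of_mem hi') h)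
    rw [Finset.sum_insert ha, Finset.card_insert_of_notMem ha]
    have hU : MeasurableSet (⋃ i ∈ s, f i) :=
      Finset.measurableSet_biUnion _ fun i hi => hf i (Finset.mem_insert_of_mem hi)
    have h1 : prob (f a ∪ ⋃ i ∈ s, f i) + prob (f a ∩ ⋃ i ∈ s, f i) =
        prob (f a) + prob (⋃ i ∈ s, f i) :=
      measureReal_union_add_inter hU (measure_ne_top _ _) (measure_ne_top _ _)
    have h2 : prob (f a ∩ ⋃ i ∈ s, f i) ≤ s.card * c := by
      rw [Set.inter_iUnion₂]
      refine (prob_biUnion_le s _).trans ?_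
      rw [← nsmul_eq_mul, ← Finset.sum_const]
      refine Finset.sum_le_sum fun i hi => ?_
      exact hc a (Finset.mem_insert_self _ _) i (Finset.mem_insert_of_mem hi)
        (fun h => ha (h ▸ hi))
    have h3 : (⋃ i ∈ insert a s, f i) = f a ∪ ⋃ i ∈ s, f i := by
      rw [Finset.set_biUnion_insert]
    rw [h3]
    push_cast
    have h4 : (0 : ℝ) ≤ s.card := Nat.cast_nonneg _
    nlinarith

end Pool.Agent.H96R.DP
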