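import Pool.Agent.H96R.DP.Ineq
import Pool.Agent.H628R3.RO.Lev

/-!
# The levels

The level increases whenever the check at the last block was successful. If the candidate pair is
disjoint for most oracles of the cylinder, then the probabilities of the bad events have a finite sum
and there are infinitely many successful checks.
-/

set_option autoImplicit false

namespace Pool.Agent.H96R.DP

open MeasureTheory Pool.Agent.NPC Pool.Agent.H628R3.RO Filter

section

variable (B : Oracle) (V : Bool → Alg) (p : Bool → Polynomial ℕ) (b : Polynomial ℕ) (t : ℕ)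
  (L : List (List Bool))

/-- the level of block number `i` -/
noncomputable def lv (i : ℕ) : ℕ := lev Bad (fun n _ => Err B V p n) t L (Tt b t) i

/-- the check at block number `i` -/
noncomputable def ck (i : ℕ) : Bool :=
  chk Bad (fun n _ => Err B V p n) t L (Tt b t i) (lv B V p b t L i)

theorem lv_zero : lv B V p b t L 0 = 4 := rfl

theorem lv_succ (i : ℕ) : lv B V p b t L (i + 1) =
    lv B V p b t L i + (ck B V p b t L i).toNat := rfl

theorem four_le_lv (i : ℕ) : 4 ≤ lv B V p b t L i := by
  induction i with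
  | zero => exact (lv_zero B V p b t L).ge
  | succ i ih => rw [lv_succ]; omega

theorem Tt_zero : Tt b t 0 = t + 4 := rfl

theorem Tt_succ (i : ℕ) : Tt b t (i + 1) = Gt b (Tt b t i) := rfl

theorem lt_Gt (n : ℕ) : n < Gt b n := by
  unfold Gt
  have : 0 < 2 ^ (2 ^ (b.eval (2 ^ n) + 1)) := by positivity
  omega

theorem Tt_strictMono : StrictMono (Tt b t) :=
  strictMono_nat_of_lt_succ fun i => by rw [Tt_succ]; exact lt_Gt b _

theorem t_lt_Tt (i : ℕ) : t < Tt b t i := by
  have h : Tt b t 0 ≤ Tt b t i := (Tt_strictMono b t).monotone (Nat.zero_le i)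
  rw [Tt_zero] at h
  omega

theorem lv_le_Tt (i : ℕ) : lv B V p b t L i ≤ Tt b t i := by
  induction i with
  | zero => rw [lv_zero, Tt_zero]; omega
  | succ i ih =>
    rw [lv_succ]
    have h1 : Tt b t i < Tt b t (i + 1) := Tt_strictMono b t (Nat.lt_succ_self i)
    have h2 : (ck B V p b t L i).toNat ≤ 1 := Bool.toNat_le _
    omega

theorem b_le_Gt (n : ℕ) : b.eval (2 ^ n) ≤ Gt b n := by
  unfold Gt
  have h1 : b.eval (2 ^ n) < 2 ^ (b.eval (2 ^ n)) := Nat.lt_two_pow_self
  have h2 : 2 ^ (b.eval (2 ^ n)) ≤ 2 ^ (b.eval (2 ^ n) + 1) :=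
    Nat.pow_le_pow_right (by norm_num) (by omega)
  have h3 : 2 ^ (b.eval (2 ^ n) + 1) < 2 ^ (2 ^ (b.eval (2 ^ n) + 1)) := Nat.lt_two_pow_self
  omega

theorem four_le_Gt (hb : ∀ m, m ≤ b.eval m) (n : ℕ) : 4 * n + 4 ≤ Gt b n := by
  unfold Gt
  have h0 : n < 2 ^ n := Nat.lt_two_pow_self
  have h1 := hb (2 ^ n)
  have h2 : 2 ^ (n + 2) ≤ 2 ^ (b.eval (2 ^ n) + 1) :=
    Nat.pow_le_pow_right (by norm_num) (by omega)
  have h3 : 2 ^ (b.eval (2 ^ n) + 1) < 2 ^ (2 ^ (b.eval (2 ^ n) + 1)) := Nat.lt_two_pow_self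
  have h4 : 2 ^ (n + 2) = 4 * 2 ^ n := by rw [pow_add]; ring
  omega

/-- the errors found at bad blocks where the check fails -/
noncomputable def YY : ℕ → Set Oracle
  | 0 => ∅
  | i + 1 => if ck B V p b t L i = true then YY i else
      YY i ∪ (Bad (Tt b t i) (lv B V p b t L i) ∩ Err B V p (Tt b t i))

variable (hb : ∀ m, m ≤ b.eval m)
  (hE : ∀ n, Loc {x | x.length ≤ b.eval (2 ^ n)} (Err B V p n))

include hb hE

theorem loc_YY (i : ℕ) : Loc {x | x.length ≤ Tt b t i} (YY B V p b t L i) := by
  induction i with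
  | zero => exact fun _ _ _ => Iff.rfl
  | succ i ih =>
    have hmono : Tt b t i ≤ Tt b t (i + 1) := (Tt_strictMono b t).monotone (Nat.le_succ i)
    have ih' : Loc {x | x.length ≤ Tt b t (i + 1)} (YY B V p b t L i) :=
      M2.Loc.mono ih fun x hx => by
        simp only [Set.mem_ofPred_eq] at hx ⊢
        omega
    unfold YY
    split_ifs
    · exact ih'
    · have h1 : Loc {x | x.length ≤ Tt b t (i + 1)} (Bad (Tt b t i) (lv B V p b t L i)) :=
        M2.Loc.mono (loc_Bad _ _) fun x hx => by
          have h2 := length_le_spotsB (lv_le_Tt B V p b t L i) x hx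
          have h3 := four_le_Gt b hb (Tt b t i)
          rw [← Tt_succ] at h3
          simp only [Set.mem_ofPred_eq]
          omega
      have h2 : Loc {x | x.length ≤ Tt b t (i + 1)} (Err B V p (Tt b t i)) :=
        M2.Loc.mono (hE _) fun x hx => by
          have h3 := b_le_Gt b (Tt b t i)
          rw [← Tt_succ] at h3
          simp only [Set.mem_ofPred_eq] at hx ⊢
          omega
      intro A A' h
      have a1 := ih' A A' h
      have a2 := h1 A A' h
      have a3 := h2 A A' h
      simp only [Set.mem_union, Set.mem_inter_iff]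
      rw [a1, a2, a3]

theorem measurableSet_YY (i : ℕ) : MeasurableSet (YY B V p b t L i) :=
  measurableSet_of_loc (finite_le _) (loc_YY B V p b t L hb hE i)

omit hb hE in
theorem YY_subset (i : ℕ) : YY B V p b t L i ⊆ ⋃ n, Err B V p n := by
  induction i with
  | zero => exact Set.empty_subset _
  | succ i ih =>
    unfold YY
    split_ifs
    · exact ih
    · refine Set.union_subset ih ?_
      exact Set.inter_subset_right.trans (Set.subset_iUnion _ _)

omit hb hE in
theorem loc_cyl_T (i : ℕ) : Loc {x | x.length ≤ Tt b t i} (cyl t L) :=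
  M2.Loc.mono (loc_cyl t L) fun x hx => by
    have := t_lt_Tt b t i
    simp only [Set.mem_ofPred_eq] at hx ⊢
    omega

omit hb hE in
theorem measurableSet_cyl : MeasurableSet (cyl t L) :=
  measurableSet_of_loc (finite_le t) (loc_cyl t L)

omit hb hE in
theorem disj_spots (n j : ℕ) : Disjoint {x : List Bool | x.length ≤ n}
    (spotsB n j : Set (List Bool)) := by
  rw [Set.disjoint_left]
  intro x hx hx'
  have := lt_length_spotsB x hx'
  simp only [Set.mem_ofPred_eq] at hx
  omega

omit hb hE in
theorem eps_lv_le (i : ℕ) : eps (lv B V p b t L i) ≤ 1 / 32 := by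
  unfold eps
  calc (1 / 2 : ℝ) ^ (lv B V p b t L i + 1) ≤ (1 / 2) ^ 5 :=
        pow_le_pow_of_le_one (by norm_num) (by norm_num)
          (by have := four_le_lv B V p b t L i; omega)
    _ = 1 / 32 := by norm_num

/-- one step, when the check fails -/
theorem step_fail (hε : prob (cyl t L ∩ ⋃ n, Err B V p n) ≤ prob (cyl t L) / 8) (i : ℕ)
    (hck : ck B V p b t L i = false) :
    prob (cyl t L ∩ YY B V p b t L i) + prob (cyl t L) / 8 * (eps (lv B V p b t L i) / 2) ≤
      prob (cyl t L ∩ YY B V p b t L (i + 1)) := by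
  set n := Tt b t i with hn
  set j := lv B V p b t L i with hj
  set Y := YY B V p b t L i with hY
  have hYm : MeasurableSet Y := measurableSet_YY B V p b t L hb hE i
  have hcm := measurableSet_cyl t L
  have hBm := measurableSet_Bad n j
  have hEm := measurableSet_Err V p B n
  have h1 : YY B V p b t L (i + 1) = Y ∪ (Bad n j ∩ Err B V p n) := by
    rw [YY, if_neg (by rw [hck]; simp)]
  have hcY : Loc {x | x.length ≤ n} (cyl t L ∩ Y) :=
    M2.Loc.inter (loc_cyl_T b t L i) (loc_YY B V p b t L hb hE i)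
  -- independence
  have h2 : prob ((cyl t L ∩ Y) ∩ (Bad n j)ᶜ) = prob (cyl t L ∩ Y) * (1 - prob (Bad n j)) := by
    have h3 := prob_inter_of_disjoint (finite_le n) (Finset.finite_toSet _) (disj_spots n j) hcY
      (loc_Bad n j)
    have h4 : prob ((cyl t L ∩ Y) ∩ Bad n j) + prob ((cyl t L ∩ Y) ∩ (Bad n j)ᶜ) =
        prob (cyl t L ∩ Y) := by
      have := measureReal_inter_add_sdiff (μ := randomOracle) (s := cyl t L ∩ Y) hBm
        (measure_ne_top _ _)
      rw [Set.sdiff_eq] at this
      exact this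
    rw [h3] at h4
    linarith
  have h5 : prob (cyl t L ∩ Bad n j) = prob (cyl t L) * prob (Bad n j) :=
    prob_inter_of_disjoint (finite_le n) (Finset.finite_toSet _) (disj_spots n j)
      (loc_cyl_T b t L i) (loc_Bad n j)
  have h6 : prob (cyl t L ∩ Bad n j) ≤ 4 * prob (cyl t L ∩ (Bad n j ∩ Err B V p n)) := by
    have h7 : ck B V p b t L i = false := hck
    unfold ck chk at h7
    rw [decide_eq_false_iff_not, not_lt] at h7
    exact h7
  have h7 : prob ((cyl t L ∩ Y) ∩ (Bad n j)ᶜ) + prob (cyl t L ∩ (Bad n j ∩ Err B V p n)) ≤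
      prob (cyl t L ∩ YY B V p b t L (i + 1)) := by
    rw [h1]
    have hd : Disjoint ((cyl t L ∩ Y) ∩ (Bad n j)ᶜ) (cyl t L ∩ (Bad n j ∩ Err B V p n)) := by
      rw [Set.disjoint_left]
      rintro A ⟨-, h⟩ ⟨-, h', -⟩
      exact h h'
    have h8 : prob (((cyl t L ∩ Y) ∩ (Bad n j)ᶜ) ∪ (cyl t L ∩ (Bad n j ∩ Err B V p n))) =
        prob ((cyl t L ∩ Y) ∩ (Bad n j)ᶜ) + prob (cyl t L ∩ (Bad n j ∩ Err B V p n)) :=
      measureReal_union hd (hcm.inter (hBm.inter hEm))
    rw [← h8]
    apply prob_mono
    rintro A (⟨⟨a, b⟩, -⟩ | ⟨a, b⟩)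
    · exact ⟨a, Or.inl b⟩
    · exact ⟨a, Or.inr b⟩
  have h8 : prob (cyl t L ∩ Y) ≤ prob (cyl t L) / 8 := by
    refine le_trans (prob_mono ?_) hε
    exact Set.inter_subset_inter_right _ (YY_subset B V p b t L i)
  have h9 : eps j / 2 ≤ prob (Bad n j) := by
    have h10 := prob_Bad_ge n j
    have h11 := eps_lv_le B V p b t L i
    have h12 := eps_pos j
    rw [← hj] at h11
    nlinarith
  have h10 : 0 ≤ prob (cyl t L) := prob_nonneg _
  have h11 : 0 ≤ prob (Bad n j) := prob_nonneg _
  have h12 : prob (cyl t L) / 8 * (eps j / 2) ≤ prob (cyl t L) / 8 * prob (Bad n j) :=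
    mul_le_mul_of_nonneg_left h9 (by positivity)
  nlinarith [mul_le_mul_of_nonneg_right h8 h11]

/-- the sum over the failed checks -/
theorem sum_fail (hε : prob (cyl t L ∩ ⋃ n, Err B V p n) ≤ prob (cyl t L) / 8)
    (hc : 0 < prob (cyl t L)) (k : ℕ) :
    ∑ i ∈ Finset.range k, (if ck B V p b t L i = true then 0 else eps (lv B V p b t L i)) ≤ 2 := by
  have h1 : ∀ k, prob (cyl t L) / 16 * ∑ i ∈ Finset.range k,
      (if ck B V p b t L i = true then 0 else eps (lv B V p b t L i)) ≤
      prob (cyl t L ∩ YY B V p b t L k) := by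
    intro k
    induction k with
    | zero => simp [prob_nonneg]
    | succ k ih =>
      rw [Finset.sum_range_succ]
      cases h : ck B V p b t L k
      · have h2 := step_fail B V p b t L hb hE hε k h
        rw [if_neg (by simp)]
        nlinarith
      · rw [if_pos rfl, add_zero]
        have h2 : YY B V p b t L (k + 1) = YY B V p b t L k := by
          rw [YY, if_pos h]
        rw [h2]
        exact ih
  have h2 : prob (cyl t L ∩ YY B V p b t L k) ≤ prob (cyl t L) / 8 := by
    refine le_trans (prob_mono ?_) hε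
    exact Set.inter_subset_inter_right _ (YY_subset B V p b t L k)
  have h3 := (h1 k).trans h2
  by_contra h4
  push Not at h4
  have h5 : prob (cyl t L) / 16 * 2 < prob (cyl t L) / 16 * ∑ i ∈ Finset.range k,
      (if ck B V p b t L i = true then 0 else eps (lv B V p b t L i)) :=
    mul_lt_mul_of_pos_left h4 (by positivity)
  linarith

omit hb hE in
/-- the sum over the successful checks -/
theorem sum_succ (k : ℕ) :
    ∑ i ∈ Finset.range k, (if ck B V p b t L i = true then eps (lv B V p b t L i) else 0) =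
      (1 / 2) ^ 4 - (1 / 2) ^ (lv B V p b t L k) := by
  induction k with
  | zero => rw [Finset.sum_range_zero, lv_zero]; norm_num
  | succ k ih =>
    rw [Finset.sum_range_succ, ih, lv_succ]
    cases h : ck B V p b t L k
    · rw [if_neg (by simp)]
      simp
    · rw [if_pos rfl]
      unfold eps
      simp only [Bool.toNat_true]
      rw [pow_succ]
      ring

/-- the sum over all blocks -/
theorem sum_eps (hε : prob (cyl t L ∩ ⋃ n, Err B V p n) ≤ prob (cyl t L) / 8)
    (hc : 0 < prob (cyl t L)) (k : ℕ) :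
    ∑ i ∈ Finset.range k, eps (lv B V p b t L i) ≤ 3 := by
  have h1 := sum_fail B V p b t L hb hE hε hc k
  have h2 := sum_succ B V p b t L k
  have h3 : ∑ i ∈ Finset.range k, eps (lv B V p b t L i) =
      ∑ i ∈ Finset.range k, (if ck B V p b t L i = true then 0 else eps (lv B V p b t L i)) +
      ∑ i ∈ Finset.range k, (if ck B V p b t L i = true then eps (lv B V p b t L i) else 0) := by
    rw [← Finset.sum_add_distrib]
    refine Finset.sum_congr rfl fun i _ => ?_
    split_ifs <;> simp
  have h4 : (0 : ℝ) ≤ (1 / 2) ^ (lv B V p b t L k) := by positivity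
  rw [h3, h2]
  have h5 : ((1 : ℝ) / 2) ^ 4 = 1 / 16 := by norm_num
  rw [h5]
  linarith

/-- there are infinitely many successful checks -/
theorem exists_ck (hε : prob (cyl t L ∩ ⋃ n, Err B V p n) ≤ prob (cyl t L) / 8)
    (hc : 0 < prob (cyl t L)) (k₀ : ℕ) : ∃ k ≥ k₀, ck B V p b t L k = true := by
  by_contra hcon
  push Not at hcon
  have h1 : ∀ i, lv B V p b t L (k₀ + i) = lv B V p b t L k₀ := by
    intro i
    induction i with
    | zero => rfl
    | succ i ih =>
      rw [← Nat.add_assoc, lv_succ, ih]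
      have := hcon (k₀ + i) (by omega)
      simp [this]
  set e := eps (lv B V p b t L k₀) with he
  have he0 : 0 < e := eps_pos _
  obtain ⟨N, hN⟩ := exists_nat_gt (3 / e)
  have h2 := sum_eps B V p b t L hb hE hε hc (k₀ + N)
  have h3 : (N : ℝ) * e ≤ ∑ i ∈ Finset.range (k₀ + N), eps (lv B V p b t L i) := by
    rw [Finset.sum_range_add]
    have h4 : ∑ i ∈ Finset.range N, eps (lv B V p b t L (k₀ + i)) = N * e := by
      rw [Finset.sum_congr rfl fun i _ => by rw [h1 i], Finset.sum_const, Finset.card_range,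
        nsmul_eq_mul]
    have h5 : 0 ≤ ∑ i ∈ Finset.range k₀, eps (lv B V p b t L i) :=
      Finset.sum_nonneg fun i _ => (eps_pos _).le
    linarith
  rw [div_lt_iff₀ he0] at hN
  linarith

/-- almost every oracle has only finitely many blocks with two equal values -/
theorem ae_not_Two (hε : prob (cyl t L ∩ ⋃ n, Err B V p n) ≤ prob (cyl t L) / 8)
    (hc : 0 < prob (cyl t L)) : ∀ᵐ A ∂randomOracle, ∃ k₀ : ℕ, ∀ k ≥ k₀,
      A ∉ Two (Tt b t k) (lv B V p b t L k) := by
  have h1 : ∑' k, randomOracle (Two (Tt b t k) (lv B V p b t L k)) ≠ ⊤ := by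
    have h2 : ∑' k, randomOracle (Two (Tt b t k) (lv B V p b t L k)) ≤ ENNReal.ofReal 12 := by
      refine ENNReal.tsum_le_of_sum_range_le fun k => ?_
      have h3 : ∀ i ∈ Finset.range k, randomOracle (Two (Tt b t i) (lv B V p b t L i)) ≤
          ENNReal.ofReal (4 * eps (lv B V p b t L i)) := by
        intro i _
        rw [← ofReal_measureReal (measure_ne_top _ _)]
        exact ENNReal.ofReal_le_ofReal (prob_Two_le _ _)
      refine (Finset.sum_le_sum h3).trans ?_
      rw [← ENNReal.ofReal_sum_of_nonneg fun i _ => by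
        have := eps_pos (lv B V p b t L i); positivity]
      apply ENNReal.ofReal_le_ofReal
      rw [← Finset.mul_sum]
      have := sum_eps B V p b t L hb hE hε hc k
      linarith
    exact ne_top_of_le_ne_top ENNReal.ofReal_ne_top h2
  filter_upwards [ae_eventually_notMem h1] with A hA
  obtain ⟨k₀, hk⟩ := eventually_atTop.1 hA
  exact ⟨k₀, hk⟩

end

end Pool.Agent.H96R.DP
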